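import Mathlib.AlgebraicGeometry.EllipticCurve.VariableChange
import Mathlib.AlgebraicGeometry.EllipticCurve.Weierstrass
import Mathlib.RingTheory.Valuation.Basic
import Mathlib.Algebra.GroupWithZero.WithZero
import Mathlib.Tactic.LinearCombination
import Mathlib.Tactic.FieldSimp
import Mathlib.Tactic.NormNum

/-!
# The twists of `X_0(49)` by `D ≡ 2, 3 mod 4`: minimality at two
-/

set_option autoImplicit false
set_option linter.unusedSectionVars false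

namespace Pool.Agent.L0h23.EV

open WithZero WeierstrassCurve

/-- the quadratic twist by `D` of `y² = x³ - 35 x - 98` -/
def WX (k : Type*) [CommRing k] (D : ℕ) : WeierstrassCurve k :=
  ⟨0, 0, 0, -35 * (D : k) ^ 2, -98 * (D : k) ^ 3⟩

section basic
variable (k : Type*) [CommRing k] (D : ℕ)

lemma WX_Δ : (WX k D).Δ = -(2 ^ 12 * 7 ^ 3 * (D : k) ^ 6) := by
  unfold WX WeierstrassCurve.Δ WeierstrassCurve.b₈ WeierstrassCurve.b₆ WeierstrassCurve.b₄
    WeierstrassCurve.b₂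
  ring

lemma WX_c₄ : (WX k D).c₄ = 1680 * (D : k) ^ 2 := by
  unfold WX WeierstrassCurve.c₄ WeierstrassCurve.b₄ WeierstrassCurve.b₂
  ring

lemma WX_c₆ : (WX k D).c₆ = 2 ^ 6 * 1323 * (D : k) ^ 3 := by
  unfold WX WeierstrassCurve.c₆ WeierstrassCurve.b₆ WeierstrassCurve.b₄ WeierstrassCurve.b₂
  ring

variable {k}

lemma WX_map {l : Type*} [CommRing l] (φ : k →+* l) : (WX k D).map φ = WX l D := by
  have h1 : φ 35 = 35 := map_ofNat φ 35
  have h2 : φ 98 = 98 := map_ofNat φ 98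
  unfold WX
  ext
  · simp
  · simp
  · simp
  · simp [h1]
  · simp [h2]

end basic

section val
variable {L : Type*} [Field L] {v : Valuation L ℤᵐ⁰}

lemma vadd' {x y : L} {c : ℤᵐ⁰} (hx : v x ≤ c) (hy : v y ≤ c) : v (x + y) ≤ c :=
  (v.map_add _ _).trans (max_le hx hy)

lemma vsub' {x y : L} {c : ℤᵐ⁰} (hx : v x ≤ c) (hy : v y ≤ c) : v (x - y) ≤ c :=
  (v.map_sub _ _).trans (max_le hx hy)

lemma vmul' {x y : L} {c : ℤᵐ⁰} (hx : v x ≤ c) (hy : v y ≤ 1) : v (x * y) ≤ c := by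
  rw [map_mul]
  exact (mul_le_mul_right hy _).trans (by rw [mul_one]; exact hx)

lemma vnat' (n : ℕ) : v (n : L) ≤ 1 := by
  induction n with
  | zero => simp
  | succ n ih =>
    push_cast
    exact vadd' ih (by rw [map_one])

/-- a unit is `1 mod 2`, its square is `1 mod 4` -/
lemma sq_unit (hres : ∀ x : L, v x ≤ 1 → v (x ^ 2 - x) ≤ v 2) {x : L} (hx : v x = 1) :
    v (x ^ 2 - 1) ≤ v 4 := by
  have h1 := hres x hx.le
  have h2 : v (x - 1) ≤ v 2 := by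
    have e : x ^ 2 - x = x * (x - 1) := by ring
    rw [e, map_mul, hx, one_mul] at h1
    exact h1
  have h3 : v (x + 1) ≤ v 2 := by
    have e : x + 1 = (x - 1) + 2 := by ring
    rw [e]
    exact vadd' h2 le_rfl
  have e : x ^ 2 - 1 = (x - 1) * (x + 1) := by ring
  have e4 : (4 : L) = 2 * 2 := by norm_num
  rw [e, e4, map_mul, map_mul]
  exact mul_le_mul' h2 h3

lemma pow6_unit (hres : ∀ x : L, v x ≤ 1 → v (x ^ 2 - x) ≤ v 2) {x : L} (hx : v x = 1) :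
    v (x ^ 6 - 1) ≤ v 4 := by
  have h1 := sq_unit hres hx
  have e : x ^ 6 - 1 = (x ^ 2 - 1) * (x ^ 4 + x ^ 2 + 1) := by ring
  rw [e]
  refine vmul' h1 ?_
  refine vadd' (vadd' ?_ ?_) ?_
  · rw [map_pow, hx, one_pow]
  · rw [map_pow, hx, one_pow]
  · rw [map_one]

/-- `c₆` of an integral equation modulo `4` -/
lemma c6_mod {W : WeierstrassCurve L} (h1 : v W.a₁ ≤ 1) (h2 : v W.a₂ ≤ 1) (h3 : v W.a₃ ≤ 1)
    (h4 : v W.a₄ ≤ 1) (h6 : v W.a₆ ≤ 1) : v (W.c₆ + W.a₁ ^ 6) ≤ v 4 := by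
  have e : W.c₆ + W.a₁ ^ 6 = 4 * (-(3 * W.a₁ ^ 4 * W.a₂ + 12 * W.a₁ ^ 2 * W.a₂ ^ 2 + 16 * W.a₂ ^ 3) +
      9 * W.b₂ * W.b₄ - 54 * W.b₆) := by
    unfold WeierstrassCurve.c₆ WeierstrassCurve.b₂
    ring
  have n : ∀ n : ℕ, v (n : L) ≤ 1 := vnat'
  have b2 : v W.b₂ ≤ 1 := by
    unfold WeierstrassCurve.b₂
    refine vadd' ?_ (vmul' (by exact_mod_cast n 4) h2)
    rw [map_pow]
    exact pow_le_one' h1 2
  have b4 : v W.b₄ ≤ 1 := by
    unfold WeierstrassCurve.b₄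
    exact vadd' (vmul' (by exact_mod_cast n 2) h4) (vmul' h1 h3)
  have b6 : v W.b₆ ≤ 1 := by
    unfold WeierstrassCurve.b₆
    refine vadd' ?_ (vmul' (by exact_mod_cast n 4) h6)
    rw [map_pow]
    exact pow_le_one' h3 2
  have p : ∀ (x : L) (k : ℕ), v x ≤ 1 → v (x ^ k) ≤ 1 := fun x k hx => by
    rw [map_pow]
    exact pow_le_one' hx k
  rw [e]
  refine vmul' le_rfl (vsub' (vadd' ?_ ?_) ?_)
  · rw [Valuation.map_neg]
    refine vadd' (vadd' ?_ ?_) ?_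
    · exact vmul' (vmul' (by exact_mod_cast n 3) (p _ 4 h1)) h2
    · exact vmul' (vmul' (by exact_mod_cast n 12) (p _ 2 h1)) (p _ 2 h2)
    · exact vmul' (by exact_mod_cast n 16) (p _ 3 h2)
  · exact vmul' (vmul' (by exact_mod_cast n 9) b2) b4
  · exact vmul' (by exact_mod_cast n 54) b6

lemma v4_lt_v2 (h2 : v 2 = exp (-1)) : v (4 : L) < v 2 := by
  have e4 : (4 : L) = 2 * 2 := by norm_num
  rw [e4, map_mul, h2, ← exp_add, exp_lt_exp]
  norm_num

lemma v4_lt_one (h2 : v 2 = exp (-1)) : v (4 : L) < 1 := by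
  refine (v4_lt_v2 h2).trans ?_
  rw [h2, ← exp_zero, exp_lt_exp]
  norm_num

/-- `D ≡ 3 mod 4`: no integral equation with a unit discriminant -/
theorem not_three (h2 : v 2 = exp (-1)) (hres : ∀ x : L, v x ≤ 1 → v (x ^ 2 - x) ≤ v 2)
    {W : WeierstrassCurve L} (h1 : v W.a₁ ≤ 1) (h2' : v W.a₂ ≤ 1) (h3 : v W.a₃ ≤ 1)
    (h4 : v W.a₄ ≤ 1) (h6 : v W.a₆ ≤ 1) {w : L} (hw : v w = 1) {d : ℕ} (hd : d % 4 = 3)
    (hc : W.c₆ = w ^ 6 * 1323 * (d : L) ^ 3) : False := by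
  obtain ⟨e, rfl⟩ : ∃ e : ℕ, d = 3 + 4 * e := ⟨d / 4, by omega⟩
  have k1 := c6_mod h1 h2' h3 h4 h6
  have k2 := pow6_unit hres hw
  -- `c₆ ≡ 1 mod 4`
  have k3 : v (W.c₆ - 1) ≤ v 4 := by
    have e1 : W.c₆ - 1 = (w ^ 6 - 1) * (1323 * ((3 + 4 * e : ℕ) : L) ^ 3) +
        4 * ((8930 + 35721 * e + 47628 * e ^ 2 + 21168 * e ^ 3 : ℕ) : L) := by
      rw [hc]
      push_cast
      ring
    rw [e1]
    refine vadd' (vmul' k2 ?_) (vmul' le_rfl (vnat' _))
    have := vnat' (v := v) (1323 * (3 + 4 * e) ^ 3)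
    push_cast at this ⊢
    exact this
  have k4 : v (W.a₁ ^ 6 + 1) ≤ v 4 := by
    have e1 : W.a₁ ^ 6 + 1 = (W.c₆ + W.a₁ ^ 6) - (W.c₆ - 1) := by ring
    rw [e1]
    exact vsub' k1 k3
  rcases lt_or_eq_of_le h1 with h5 | h5
  · have h7 : v (W.a₁ ^ 6 + 1) = 1 := by
      have h8 : v (W.a₁ ^ 6) < v 1 := by
        rw [map_pow, map_one]
        exact pow_lt_one₀ zero_le h5 (by norm_num)
      rw [Valuation.map_add_eq_of_lt_right v h8, map_one]
    rw [h7] at k4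
    exact absurd k4 (not_le.2 (v4_lt_one h2))
  · have h7 := pow6_unit hres h5
    have h8 : v (2 : L) ≤ v 4 := by
      have e1 : (2 : L) = (W.a₁ ^ 6 + 1) - (W.a₁ ^ 6 - 1) := by ring
      calc v (2 : L) = v ((W.a₁ ^ 6 + 1) - (W.a₁ ^ 6 - 1)) := by rw [← e1]
        _ ≤ v 4 := vsub' k4 h7
    exact absurd h8 (not_le.2 (v4_lt_v2 h2))

/-- `D` even: no integral equation with a discriminant of valuation `6` -/
theorem not_even (h2 : v 2 = exp (-1))
    {W : WeierstrassCurve L} (h1 : v W.a₁ ≤ 1) (h2' : v W.a₂ ≤ 1) (h3 : v W.a₃ ≤ 1)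
    (h4 : v W.a₄ ≤ 1) (h6 : v W.a₆ ≤ 1) (hc6 : v W.c₆ < 1) (hc : v W.c₄ = exp (-2)) : False := by
  have k1 := c6_mod h1 h2' h3 h4 h6
  have h5 : v W.a₁ < 1 := by
    by_contra hcon
    have h7 : v W.a₁ = 1 := le_antisymm h1 (not_lt.1 hcon)
    have h8 : v (W.c₆ + W.a₁ ^ 6) = 1 := by
      have h9 : v W.c₆ < v (W.a₁ ^ 6) := by rw [map_pow, h7, one_pow]; exact hc6
      rw [Valuation.map_add_eq_of_lt_right v h9, map_pow, h7, one_pow]
    rw [h8] at k1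
    exact absurd k1 (not_le.2 (v4_lt_one h2))
  have h7 : v W.a₁ ≤ exp (-1) := by
    by_cases h0 : v W.a₁ = 0
    · rw [h0]; exact zero_le
    · obtain ⟨k, hk⟩ : ∃ k : ℤ, v W.a₁ = exp k := ⟨log _, (exp_log h0).symm⟩
      rw [hk] at h5 ⊢
      rw [← exp_zero, exp_lt_exp] at h5
      rw [exp_le_exp]
      omega
  have e4 : v (4 : L) = exp (-2) := by
    have e : (4 : L) = 2 * 2 := by norm_num
    rw [e, map_mul, h2, ← exp_add]
    norm_num
  have n : ∀ n : ℕ, v (n : L) ≤ 1 := vnat'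
  have b2 : v W.b₂ ≤ exp (-2) := by
    unfold WeierstrassCurve.b₂
    refine vadd' ?_ (vmul' e4.le h2')
    have : W.a₁ ^ 2 = W.a₁ * W.a₁ := pow_two _
    rw [this, map_mul]
    refine (mul_le_mul' h7 h7).trans ?_
    rw [← exp_add]
    norm_num
  have b4 : v W.b₄ ≤ exp (-1) := by
    unfold WeierstrassCurve.b₄
    exact vadd' (vmul' h2.le h4) (vmul' h7 h3)
  have c4 : v W.c₄ ≤ exp (-4) := by
    unfold WeierstrassCurve.c₄
    refine vsub' ?_ ?_
    · rw [pow_two, map_mul]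
      refine (mul_le_mul' b2 b2).trans ?_
      rw [← exp_add]
      norm_num
    · have e : (24 : L) = 4 * 2 * 3 := by norm_num
      rw [map_mul, e, map_mul, map_mul, e4, h2]
      have h8 : v (3 : L) ≤ 1 := by exact_mod_cast n 3
      calc exp (-2 : ℤ) * exp (-1) * v 3 * v W.b₄ ≤ exp (-2 : ℤ) * exp (-1) * 1 * exp (-1) :=
            mul_le_mul' (mul_le_mul' le_rfl h8) b4
        _ = exp (-4) := by
          rw [mul_one, ← exp_add, ← exp_add]
          norm_num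
  rw [hc, exp_le_exp] at c4
  norm_num at c4

/-- minimality of the equation at two -/
theorem minimal_two (h2 : v 2 = exp (-1)) (hres : ∀ x : L, v x ≤ 1 → v (x ^ 2 - x) ≤ v 2)
    (h7 : v 7 = 1) {D : ℕ} (hD : (D % 4 = 3 ∧ v (D : L) = 1) ∨ (D % 4 = 2 ∧ v (D : L) = exp (-1)))
    (C : VariableChange L) (h1 : v (C • WX L D).a₁ ≤ 1) (h2' : v (C • WX L D).a₂ ≤ 1)
    (h3 : v (C • WX L D).a₃ ≤ 1) (h4 : v (C • WX L D).a₄ ≤ 1) (h6 : v (C • WX L D).a₆ ≤ 1)
    (hint : v (C • WX L D).Δ ≤ 1) : v (C • WX L D).Δ ≤ v (WX L D).Δ := by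
  have n : ∀ n : ℕ, v (n : L) ≤ 1 := vnat'
  have hodd : ∀ m : ℕ, v (((2 * m + 1 : ℕ)) : L) = 1 := by
    intro m
    have e : (((2 * m + 1 : ℕ)) : L) = 2 * (m : L) + 1 := by push_cast; ring
    rw [e]
    have h8 : v (2 * (m : L)) < v 1 := by
      rw [map_mul, h2, map_one]
      calc exp (-1 : ℤ) * v (m : L) ≤ exp (-1) * 1 := mul_le_mul' le_rfl (n m)
        _ < 1 := by rw [mul_one, ← exp_zero, exp_lt_exp]; norm_num
    rw [Valuation.map_add_eq_of_lt_right v h8, map_one]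
  have e2 : ∀ m : ℕ, v ((2 : L) ^ m) = exp (-(m : ℤ)) := by
    intro m
    rw [map_pow, h2, ← exp_nsmul]
    simp
  set u : L := ((C.u⁻¹ : Lˣ) : L) with hu
  have hu0 : u ≠ 0 := (C.u⁻¹).ne_zero
  have hv0 : v u ≠ 0 := (Valuation.ne_zero_iff v).2 hu0
  obtain ⟨k, hk⟩ : ∃ k : ℤ, v u = exp k := ⟨log (v u), (exp_log hv0).symm⟩
  have hΔ : (C • WX L D).Δ = u ^ 12 * (WX L D).Δ := by rw [variableChange_Δ]
  have hc4 : (C • WX L D).c₄ = u ^ 4 * (WX L D).c₄ := by rw [variableChange_c₄]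
  have hc6 : (C • WX L D).c₆ = u ^ 6 * (WX L D).c₆ := by rw [variableChange_c₆]
  have hp : ∀ m : ℕ, v (u ^ m) = exp (m * k) := by
    intro m
    rw [map_pow, hk, ← exp_nsmul]
    simp
  rcases hD with ⟨hD, hvD⟩ | ⟨hD, hvD⟩
  · have hΔv : v (WX L D).Δ = exp (-12) := by
      rw [WX_Δ, Valuation.map_neg, map_mul, map_mul, e2, map_pow, map_pow, h7, hvD]
      norm_num
    rw [hΔ, map_mul, hp, hΔv, ← exp_add] at hint ⊢
    rw [← exp_zero, exp_le_exp] at hint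
    rw [exp_le_exp]
    push_cast at hint ⊢
    by_contra hcon
    have hk1 : k = 1 := by omega
    subst hk1
    have hw : v (2 * u) = 1 := by
      rw [map_mul, h2, hk, ← exp_add]
      norm_num
    refine not_three h2 hres h1 h2' h3 h4 h6 hw hD ?_
    rw [hc6, WX_c₆]
    ring
  · have hΔv : v (WX L D).Δ = exp (-18) := by
      rw [WX_Δ, Valuation.map_neg, map_mul, map_mul, e2, map_pow, map_pow, h7, hvD, ← exp_nsmul,
        one_pow, mul_one, ← exp_add]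
      norm_num
    rw [hΔ, map_mul, hp, hΔv, ← exp_add] at hint ⊢
    rw [← exp_zero, exp_le_exp] at hint
    rw [exp_le_exp]
    push_cast at hint ⊢
    by_contra hcon
    have hk1 : k = 1 := by omega
    subst hk1
    have h105 : v (105 : L) = 1 := by
      have := hodd 52
      push_cast at this
      norm_num at this
      exact this
    refine not_even h2 h1 h2' h3 h4 h6 ?_ ?_
    · rw [hc6, WX_c₆, map_mul, hp, map_mul, map_mul, e2, map_pow, hvD, ← exp_nsmul]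
      have h8 : v (1323 : L) ≤ 1 := by exact_mod_cast n 1323
      calc exp (((6 : ℕ) : ℤ) * 1) * (exp (-((6 : ℕ) : ℤ)) * v 1323 * exp (3 • (-1 : ℤ))) ≤
            exp (((6 : ℕ) : ℤ) * 1) * (exp (-((6 : ℕ) : ℤ)) * 1 * exp (3 • (-1 : ℤ))) :=
            mul_le_mul' le_rfl (mul_le_mul' (mul_le_mul' le_rfl h8) le_rfl)
        _ < 1 := by
          simp only [mul_one, ← exp_add]
          rw [← exp_zero, exp_lt_exp]
          norm_num
    · have e : (1680 : L) = 2 ^ 4 * 105 := by norm_num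
      rw [hc4, WX_c₄, e, map_mul, hp, map_mul, map_mul, e2, h105, map_pow, hvD, ← exp_nsmul]
      simp only [mul_one, ← exp_add]
      norm_num

end val

end Pool.Agent.L0h23.EV
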