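import Pool.Agent.Y698.SG.Ui
import Pool.Agent.Y306.SG.Tors
import Pool.Agent.L0h23.EV.Two

/-!
# The torsion of the twists of `X_0(49)` by `D ≡ 2, 3 mod 4`
-/

set_option autoImplicit false
set_option linter.unusedSectionVars false

namespace Pool.Agent.L0h23.EV

open Pool.Agent.Y698 Pool.Agent.Y698.SG
open NumberField IsDedekindDomain WithZero MeasureTheory WeierstrassCurve
open Pool.Agent.Y700 (VR)
open Cv (WF)

lemma vr_WX (K : Type) [Field K] (D : ℕ) :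
    VR (WF K (21 * (D : ℤ)) (112 * (D : ℤ) ^ 2)) (WX K D) 1 (-7 * (D : K)) 0 0 where
  u0 := one_ne_zero
  e1 := by
    show (1 : K) * 0 = 0 + 2 * 0
    ring
  e2 := by
    show (1 : K) ^ 2 * 0 = ((21 * (D : ℤ) : ℤ) : K) - 0 * 0 + 3 * (-7 * (D : K)) - 0 ^ 2
    push_cast
    ring
  e3 := by
    show (1 : K) ^ 3 * 0 = 0 + (-7 * (D : K)) * 0 + 2 * 0
    ring
  e4 := by
    show (1 : K) ^ 4 * (-35 * (D : K) ^ 2) = ((112 * (D : ℤ) ^ 2 : ℤ) : K) - 0 * 0 +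
      2 * (-7 * (D : K)) * ((21 * (D : ℤ) : ℤ) : K) - (0 + (-7 * (D : K)) * 0) * 0 +
      3 * (-7 * (D : K)) ^ 2 - 2 * 0 * 0
    push_cast
    ring
  e6 := by
    show (1 : K) ^ 6 * (-98 * (D : K) ^ 3) = 0 + (-7 * (D : K)) * ((112 * (D : ℤ) ^ 2 : ℤ) : K) +
      (-7 * (D : K)) ^ 2 * ((21 * (D : ℤ) : ℤ) : K) + (-7 * (D : K)) ^ 3 - 0 * 0 - 0 ^ 2 -
      (-7 * (D : K)) * 0 * 0
    push_cast
    ring

lemma WX_ne (K : Type) [Field K] [CharZero K] {D : ℕ} (hD : D ≠ 0) : (WX K D).Δ ≠ 0 := by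
  rw [WX_Δ]
  have : (D : K) ≠ 0 := Nat.cast_ne_zero.2 hD
  refine neg_ne_zero.2 (mul_ne_zero ?_ (pow_ne_zero _ this))
  norm_num

/-- the order of the torsion group is twice an odd number -/
theorem tnum_WX {D : ℕ} (hD : D ≠ 0) : ∃ m : ℕ, Odd m ∧ tnum (WX ℚ D) = 2 * m := by
  have hDZ : (D : ℤ) ≠ 0 := Nat.cast_ne_zero.2 hD
  have hDQ : (D : ℚ) ≠ 0 := Nat.cast_ne_zero.2 hD
  have hb : 112 * (D : ℤ) ^ 2 ≠ 0 := mul_ne_zero (by norm_num) (pow_ne_zero 2 hDZ)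
  have hab : (21 * (D : ℤ)) ^ 2 - 4 * (112 * (D : ℤ) ^ 2) ≠ 0 := by
    have e : (21 * (D : ℤ)) ^ 2 - 4 * (112 * (D : ℤ) ^ 2) = -7 * (D : ℤ) ^ 2 := by ring
    rw [e]
    exact mul_ne_zero (by norm_num) (pow_ne_zero 2 hDZ)
  have nb : ¬ IsSquare ((112 * (D : ℤ) ^ 2 : ℤ) : ℚ) := by
    rintro ⟨s, hs⟩
    have h7 : IsSquare ((7 : ℕ) : ℚ) := by
      refine ⟨s / (4 * (D : ℚ)), ?_⟩
      push_cast at hs ⊢
      field_simp
      linear_combination hs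
    rw [Rat.isSquare_natCast_iff] at h7
    obtain ⟨r, hr⟩ := h7
    rcases Nat.lt_or_ge r 3 with h | h
    · interval_cases r <;> omega
    · nlinarith
  have nab : ¬ IsSquare (((21 * (D : ℤ) : ℤ) : ℚ) ^ 2 - 4 * ((112 * (D : ℤ) ^ 2 : ℤ) : ℚ)) := by
    rintro ⟨s, hs⟩
    push_cast at hs
    have h1 : 0 < (D : ℚ) ^ 2 := by positivity
    nlinarith [mul_self_nonneg s]
  obtain ⟨k, hk, h1⟩ := Pool.Agent.Y306.SG.t_TORS ℚ _ _ hb hab nb nab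
  refine ⟨k, hk, ?_⟩
  rw [tnum_vr (vr_WX ℚ D) (WX_ne ℚ hD)]
  exact h1

end Pool.Agent.L0h23.EV
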