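import Pool.Agent.L0h23.EV.Loc
import Pool.Agent.Y698.Sp2

/-!
# The L-series of the twists of `X_0(49)` by `D ≡ 2, 3 mod 4`
-/

set_option autoImplicit false
set_option linter.unusedSectionVars false

namespace Pool.Agent.L0h23.EV

open Pool.Agent.Y698
open NumberField IsDedekindDomain WeierstrassCurve Pool.Agent.W189.NF IsCyclotomicExtension.Rat
open Pool.Agent.H921R2.TatePole Pool.Agent.H82R3.EK

lemma cyc_inst' (n : ℕ) [NeZero n] : IsCyclotomicExtension {n} ℚ (CyclotomicField n ℚ) := by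
  have : NeZero ((n : ℕ) : ℚ) := ⟨Nat.cast_ne_zero.2 (NeZero.ne n)⟩
  exact CyclotomicField.isCyclotomicExtension n ℚ

/-- the valuation of the prime number below `v` -/
lemma val_Q (v : HeightOneSpectrum (𝓞 ℚ)) :
    v.valuation ℚ ((below v : ℕ) : ℚ) = WithZero.exp (-1 : ℤ) := by
  have hM := cyc_inst' 1
  refine val_unram 1 (CyclotomicField 1 ℚ) ℚ (below v) ?_ v rfl
  intro h
  exact (below v).2.one_lt.ne' (Nat.dvd_one.1 h)

lemma deg_Q (v : HeightOneSpectrum (𝓞 ℚ)) : deg v = 1 := by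
  have hp : Fact (below v : ℕ).Prime := ⟨(below v).2⟩
  have hM := cyc_inst' (below v : ℕ)
  exact (split_ram (below v : ℕ) (CyclotomicField (below v : ℕ) ℚ) ℚ (below v) rfl).1 v rfl

lemma card_Q (q : Nat.Primes) :
    Fintype.card {v : HeightOneSpectrum (𝓞 ℚ) // below v = q} = 1 := by
  have hp : Fact (q : ℕ).Prime := ⟨q.2⟩
  have hM := cyc_inst' (q : ℕ)
  exact (split_ram (q : ℕ) (CyclotomicField (q : ℕ) ℚ) ℚ q rfl).2

section
variable (v : HeightOneSpectrum (𝓞 ℚ))

lemma card_res_Q : Nat.card (IsLocalRing.ResidueField (v.adicCompletionIntegers ℚ)) =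
    (below v : ℕ) := by
  rw [card_res v, (nm_eq v).1, deg_Q, pow_one]

/-- the numbers prime to the residue characteristic are units -/
lemma unit_Q {m : ℕ} (hm : ¬ (below v : ℕ) ∣ m) : IsUnit ((m : ℕ) : Ov v) := by
  by_contra hcon
  have h1 : IsLocalRing.residue (Ov v) ((m : ℕ) : Ov v) = 0 :=
    (IsLocalRing.residue_eq_zero_iff _).2 ((IsLocalRing.mem_maximalIdeal _).2 hcon)
  rw [map_natCast] at h1
  have hfin := finite_res v
  have h2 : ((below v : ℕ) : IsLocalRing.ResidueField (Ov v)) = 0 := by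
    have h2 : ((Nat.card (IsLocalRing.ResidueField (Ov v)) : ℕ) :
        IsLocalRing.ResidueField (Ov v)) = 0 := by
      have := Fintype.ofFinite (IsLocalRing.ResidueField (Ov v))
      rw [Nat.card_eq_fintype_card]
      exact Nat.cast_card_eq_zero _
    rwa [card_res_Q v] at h2
  have hcop : IsCoprime ((below v : ℕ) : ℤ) (m : ℤ) :=
    Nat.isCoprime_iff_coprime.2 (((below v).2.coprime_iff_not_dvd).2 hm)
  obtain ⟨s, t, hst⟩ := hcop
  have h3 := congrArg (fun z : ℤ => (z : IsLocalRing.ResidueField (Ov v))) hst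
  push_cast at h3
  rw [h1, h2, mul_zero, mul_zero, add_zero] at h3
  exact zero_ne_one h3

/-- the valuation of the completion -/
noncomputable abbrev vL : Valuation (v.adicCompletion ℚ) (WithZero (Multiplicative ℤ)) :=
  (IsDiscreteValuationRing.maximalIdeal (v.adicCompletionIntegers ℚ)).valuation (v.adicCompletion ℚ)

lemma vL_unit {m : ℕ} (hm : ¬ (below v : ℕ) ∣ m) : vL v ((m : ℕ) : v.adicCompletion ℚ) = 1 := by
  have h := v_unit (L := v.adicCompletion ℚ) (v.adicCompletionIntegers ℚ) (unit_Q v hm)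
  have e : algebraMap (v.adicCompletionIntegers ℚ) (v.adicCompletion ℚ) ((m : ℕ) : Ov v) =
      ((m : ℕ) : v.adicCompletion ℚ) := map_natCast _ _
  rw [e] at h
  exact h

lemma vL_below : vL v (((below v : ℕ) : ℕ) : v.adicCompletion ℚ) = WithZero.exp (-1 : ℤ) :=
  mv v (val_Q v)

/-- the residue field at two -/
lemma res_two (h2 : (below v : ℕ) = 2) (x : v.adicCompletion ℚ) (hx : vL v x ≤ 1) :
    vL v (x ^ 2 - x) ≤ vL v 2 := by
  have h8 : vL v (2 : v.adicCompletion ℚ) = WithZero.exp (-1 : ℤ) := by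
    have := vL_below v
    rw [h2] at this
    exact_mod_cast this
  obtain ⟨x0, rfl⟩ := IsDiscreteValuationRing.exists_lift_of_le_one
    (A := v.adicCompletionIntegers ℚ) (K := v.adicCompletion ℚ) hx
  have hfin := finite_res v
  have hcard : Nat.card (IsLocalRing.ResidueField (Ov v)) = 2 := by rw [card_res_Q, h2]
  have h3 : IsLocalRing.residue (Ov v) (x0 ^ 2 - x0) = 0 := by
    rw [map_sub, map_pow, sub_eq_zero]
    have := Fintype.ofFinite (IsLocalRing.ResidueField (Ov v))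
    have h4 := FiniteField.pow_card (IsLocalRing.residue (Ov v) x0)
    rw [← Nat.card_eq_fintype_card, hcard] at h4
    exact h4
  have h4 : x0 ^ 2 - x0 ∈ IsLocalRing.maximalIdeal (Ov v) :=
    (IsLocalRing.residue_eq_zero_iff _).1 h3
  have h5 : vL v (algebraMap (v.adicCompletionIntegers ℚ) (v.adicCompletion ℚ) (x0 ^ 2 - x0)) < 1 :=
    (IsDedekindDomain.HeightOneSpectrum.valuation_lt_one_iff_mem _ _).2 h4
  rw [map_sub, map_pow] at h5
  rw [h8]
  set y := (algebraMap (v.adicCompletionIntegers ℚ) (v.adicCompletion ℚ)) x0 ^ 2 -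
    (algebraMap (v.adicCompletionIntegers ℚ) (v.adicCompletion ℚ)) x0 with hy
  by_cases h0 : vL v y = 0
  · rw [h0]; exact zero_le
  · obtain ⟨k, hk⟩ : ∃ k : ℤ, vL v y = WithZero.exp k :=
      ⟨WithZero.log _, (WithZero.exp_log h0).symm⟩
    rw [hk] at h5 ⊢
    rw [← WithZero.exp_zero, WithZero.exp_lt_exp] at h5
    rw [WithZero.exp_le_exp]
    omega

end

/-- the coefficients of the local factors -/
theorem coeffsE {D : ℕ} (h : AdmE D) (v : HeightOneSpectrum (𝓞 ℚ)) :
    ((aV (WX ℚ D) v : ℤ) : ℂ) = ch D (below v : ℕ) * bc (below v : ℕ) ∧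
    ((eV (WX ℚ D) v : ℤ) : ℂ) = ch D (below v : ℕ) ^ 2 * ec (below v : ℕ) := by
  classical
  have hD0 : D ≠ 0 := h.sf.ne_zero
  have hW0 : (WX ℚ D).baseChange (v.adicCompletion ℚ) = WX (v.adicCompletion ℚ) D :=
    WX_map D (algebraMap ℚ (v.adicCompletion ℚ))
  have hW : (WX ℚ D).baseChange (v.adicCompletion ℚ) =
      (WX (Ov v) D).map (algebraMap (Ov v) (v.adicCompletion ℚ)) := by
    rw [hW0, WX_map]
  have hjv : vL v ((-3375 : ℤ) : v.adicCompletion ℚ) ≤ 1 := by
    have e : ((-3375 : ℤ) : v.adicCompletion ℚ) = -((3375 : ℕ) : v.adicCompletion ℚ) := by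
      push_cast; rfl
    rw [e, Valuation.map_neg]
    exact vnat' 3375
  have hj3 : ((WX ℚ D).baseChange (v.adicCompletion ℚ)).c₄ ^ 3 =
      ((-3375 : ℤ) : v.adicCompletion ℚ) * ((WX ℚ D).baseChange (v.adicCompletion ℚ)).Δ := by
    rw [hW0, WX_Δ, WX_c₄]
    push_cast
    ring
  have hpr : (below v : ℕ).Prime := (below v).2
  have hvb := vL_below v
  have hadd : ∀ m : ℕ, ¬ 12 ∣ m →
      vL v ((WX ℚ D).baseChange (v.adicCompletion ℚ)).Δ = WithZero.exp (-(m : ℤ)) →
      aV (WX ℚ D) v = 0 ∧ eV (WX ℚ D) v = 0 := fun m hm hΔ =>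
    min_add' (v.adicCompletionIntegers ℚ) hm hΔ hjv hj3
  have hexp : ∀ m : ℕ, WithZero.exp (-1 : ℤ) ^ m = WithZero.exp (-(m : ℤ)) := by
    intro m
    rw [← WithZero.exp_nsmul]
    simp
  by_cases h2 : (below v : ℕ) = 2
  · have key : aV (WX ℚ D) v = 0 ∧ eV (WX ℚ D) v = 0 := by
      have h7 : vL v (7 : v.adicCompletion ℚ) = 1 := by
        have := vL_unit v (m := 7) (by rw [h2]; norm_num)
        exact_mod_cast this
      have h8 : vL v (2 : v.adicCompletion ℚ) = WithZero.exp (-1 : ℤ) := by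
        rw [h2] at hvb
        exact_mod_cast hvb
      unfold aV eV
      rw [hW0]
      refine min_add2 (v.adicCompletionIntegers ℚ) h8 (res_two v h2) h7 ?_
      rcases h.m4 with h4 | h4
      · right
        refine ⟨h4, ?_⟩
        obtain ⟨m, rfl⟩ : ∃ m, D = 2 * m := ⟨D / 2, by omega⟩
        have hm := vL_unit v (m := m) (by rw [h2]; omega)
        push_cast
        change vL v (2 * (m : v.adicCompletion ℚ)) = _
        rw [map_mul, hm, mul_one, h8]
      · left
        exact ⟨h4, vL_unit v (m := D) (by rw [h2]; omega)⟩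
    rw [key.1, key.2]
    unfold ch
    rw [if_pos h2]
    constructor
    · push_cast; ring
    · push_cast; ring
  by_cases hb : (below v : ℕ) = 7
  · have hΔ : vL v ((WX ℚ D).baseChange (v.adicCompletion ℚ)).Δ = WithZero.exp (-((3 : ℕ) : ℤ)) := by
      have h7 : vL v (7 : v.adicCompletion ℚ) = WithZero.exp (-1 : ℤ) := by
        rw [hb] at hvb
        exact_mod_cast hvb
      have h8 : vL v (2 : v.adicCompletion ℚ) = 1 := by
        have := vL_unit v (m := 2) (by rw [hb]; norm_num)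
        exact_mod_cast this
      have h9 := vL_unit v (m := D) (by rw [hb]; exact h.n7)
      rw [hW0, WX_Δ, Valuation.map_neg, map_mul, map_mul, map_pow, map_pow, map_pow, h7, h8, h9,
        one_pow, one_pow, one_mul, mul_one, hexp]
    obtain ⟨a1, a2⟩ := hadd 3 (by norm_num) hΔ
    rw [a1, a2, hb]
    have hb7 : bc 7 = 0 := by
      have := bc_seven 0
      rwa [zero_add, pow_one] at this
    have he7 : ec 7 = 0 := by unfold ec; rw [if_pos rfl]
    rw [hb7, he7]
    constructor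
    · push_cast; ring
    · push_cast; ring
  by_cases hbD : (below v : ℕ) ∣ D
  · have h7 : vL v (7 : v.adicCompletion ℚ) = 1 := by
      have := vL_unit v (m := 7) (fun hd => hb ((Nat.prime_dvd_prime_iff_eq hpr (by norm_num)).1 hd))
      exact_mod_cast this
    have h8 : vL v (2 : v.adicCompletion ℚ) = 1 := by
      have := vL_unit v (m := 2) (fun hd => h2 ((Nat.prime_dvd_prime_iff_eq hpr Nat.prime_two).1 hd))
      exact_mod_cast this
    obtain ⟨m, hm⟩ := hbD
    have hpm : ¬ (below v : ℕ) ∣ m := by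
      intro hd
      have h3 : (below v : ℕ) * (below v : ℕ) ∣ D := by
        rw [hm]
        exact mul_dvd_mul_left _ hd
      exact hpr.one_lt.ne' (Nat.isUnit_iff.1 (h.sf _ h3))
    have h9 := vL_unit v hpm
    have hvD : vL v (D : v.adicCompletion ℚ) = WithZero.exp (-1 : ℤ) := by
      have e : (D : v.adicCompletion ℚ) = ((below v : ℕ) : v.adicCompletion ℚ) * (m : v.adicCompletion ℚ) := by
        rw [← Nat.cast_mul, ← hm]
      rw [e, map_mul, hvb, h9, mul_one]
    have hΔ : vL v ((WX ℚ D).baseChange (v.adicCompletion ℚ)).Δ = WithZero.exp (-((6 : ℕ) : ℤ)) := by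
      rw [hW0, WX_Δ, Valuation.map_neg, map_mul, map_mul, map_pow, map_pow, map_pow, h7, h8, hvD,
        one_pow, one_pow, one_mul, one_mul, hexp]
    obtain ⟨a1, a2⟩ := hadd 6 (by norm_num) hΔ
    have hc0 : ch D (below v : ℕ) = 0 := by
      unfold ch
      rw [if_neg h2]
      have h3 : jacobiSym (D : ℤ) (below v : ℕ) = 0 := by
        have hne : NeZero (below v : ℕ) := ⟨hpr.ne_zero⟩
        rw [jacobiSym.eq_zero_iff_not_coprime]
        intro hc
        have h4 : (below v : ℕ) ∣ Int.gcd (D : ℤ) ((below v : ℕ) : ℤ) := by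
          rw [Int.gcd_natCast_natCast]
          exact Nat.dvd_gcd ⟨m, hm⟩ dvd_rfl
        rw [hc] at h4
        exact hpr.one_lt.ne' (Nat.dvd_one.1 h4)
      rw [h3, Int.cast_zero]
    rw [a1, a2, hc0]
    constructor
    · push_cast; ring
    · push_cast; ring
  · have hfin := finite_res v
    have hcard := card_res_Q v
    have hΔ : IsUnit (WX (Ov v) D).Δ := by
      rw [WX_Δ]
      have u2 := unit_Q v (m := 2) (fun hd => h2 ((Nat.prime_dvd_prime_iff_eq hpr Nat.prime_two).1 hd))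
      have u7 := unit_Q v (m := 7) (fun hd => hb ((Nat.prime_dvd_prime_iff_eq hpr (by norm_num)).1 hd))
      have uD := unit_Q v (m := D) hbD
      push_cast at u2 u7 uD
      exact ((((u2.pow 12).mul (u7.pow 3))).mul (uD.pow 6)).neg
    obtain ⟨a1, a2⟩ := min_count (v.adicCompletionIntegers ℚ) hΔ hW
    unfold aV eV
    rw [a1, a2, WX_map]
    have hch : ch D (below v : ℕ) = ((jacobiSym D (below v : ℕ) : ℤ) : ℂ) := by
      unfold ch
      rw [if_neg h2]
    have hsq : ch D (below v : ℕ) ^ 2 = 1 := by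
      rw [hch, ← Int.cast_pow, jacobiSym.sq_one, Int.cast_one]
      rw [Int.gcd_natCast_natCast]
      exact ((hpr.coprime_iff_not_dvd).2 hbD).symm
    constructor
    · rw [hch]
      exact trace_E (IsLocalRing.ResidueField (Ov v)) hpr h2 hb hcard hbD
    · have : ec (below v : ℕ) = ((below v : ℕ) : ℂ) := by unfold ec; rw [if_neg hb]
      rw [this, hsq, one_mul]
      have h3 : Nat.card (IsLocalRing.ResidueField (v.adicCompletionIntegers ℚ)) = (below v : ℕ) :=
        hcard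
      rw [h3]
      push_cast
      rfl

/-- **the Euler product is the L-series of the curve** -/
theorem lseriesE {D : ℕ} (h : AdmE D) {F : ℂ → ℂ}
    (g2 : ∀ z : ℂ, 2 < z.re → HasProd (fun p : Nat.Primes =>
      (1 - bc p * (ch D (p : ℕ) * ((p : ℕ) : ℂ) ^ (-z)) +
      ec p * (ch D (p : ℕ) * ((p : ℕ) : ℂ) ^ (-z)) ^ 2)⁻¹) (F z)) :
    ∀ s : ℂ, 2 < s.re → F s = (WX ℚ D).LSeries s := by
  classical
  intro s hs
  have h1 := g2 s hs
  have h2 := (LSeries_hasProd (WX ℚ D) hs).2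
  have h3 := (Equiv.sigmaFiberEquiv (below (K := ℚ))).hasProd_iff.2 h2
  have h4 := h3.sigma (g := fun q : Nat.Primes =>
    (1 - bc q * (ch D (q : ℕ) * ((q : ℕ) : ℂ) ^ (-s)) +
      ec q * (ch D (q : ℕ) * ((q : ℕ) : ℂ) ^ (-s)) ^ 2)⁻¹) (fun q => by
    have hu := card_Q q
    rw [Fintype.card_eq_one_iff] at hu
    obtain ⟨v0, hv0⟩ := hu
    have huniq : Unique {v : HeightOneSpectrum (𝓞 ℚ) // below v = q} := ⟨⟨v0⟩, hv0⟩
    have e : (1 - bc q * (ch D (q : ℕ) * ((q : ℕ) : ℂ) ^ (-s)) +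
        ec q * (ch D (q : ℕ) * ((q : ℕ) : ℂ) ^ (-s)) ^ 2)⁻¹ =
        (1 - (aV (WX ℚ D) v0.1 : ℂ) * (nm v0.1 : ℂ) ^ (-s) +
          (eV (WX ℚ D) v0.1 : ℂ) * ((nm v0.1 : ℂ) ^ (-s)) ^ 2)⁻¹ := by
      obtain ⟨c1, c2⟩ := coeffsE h v0.1
      rw [c1, c2, (nm_eq v0.1).1, deg_Q, pow_one, v0.2]
      congr 1
      ring
    rw [e]
    have h5 := hasProd_unique (fun v : {v : HeightOneSpectrum (𝓞 ℚ) // below v = q} =>
      (1 - (aV (WX ℚ D) v.1 : ℂ) * (nm v.1 : ℂ) ^ (-s) +
          (eV (WX ℚ D) v.1 : ℂ) * ((nm v.1 : ℂ) ^ (-s)) ^ 2)⁻¹)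
    have e5 : (default : {v : HeightOneSpectrum (𝓞 ℚ) // below v = q}) = v0 := hv0 _
    rw [e5] at h5
    exact h5)
  exact h1.unique h4

end Pool.Agent.L0h23.EV
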