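import Mathlib

/-!
# Square roots of the elements congruent to one modulo eight, in complete valued fields
-/

set_option autoImplicit false

open WithZero Filter Topology

namespace Pool.Agent.L0h23.EV

section

variable {L : Type*} [Field L] [Valued L (WithZero (Multiplicative ℤ))]

theorem nonarch' : NonarchimedeanAddGroup L where
  is_nonarchimedean U hU := by
    obtain ⟨γ, hγ⟩ := Valued.mem_nhds_zero.1 hU
    refine ⟨⟨Valuation.ltAddSubgroup (Valued.v (R := L)).restrict γ, ?_⟩, ?_⟩
    · exact Valued.isOpen_ball L γ.1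
    · intro x hx
      exact hγ hx

/-- `z² + z = c` is solvable when `c` is small -/
theorem as_root [CompleteSpace L] [T0Space L] (c : L) (hc : Valued.v c < 1) :
    ∃ z : L, z ^ 2 + z = c := by
  let T : L → L := fun z => c - z ^ 2
  obtain ⟨z, z0, zs⟩ : ∃ z : ℕ → L, z 0 = 0 ∧ ∀ n, z (n + 1) = T (z n) :=
    ⟨fun n => Nat.rec 0 (fun _ y => T y) n, rfl, fun _ => rfl⟩
  set δ := Valued.v c with hδ
  have hT : ∀ y y' : L, Valued.v y ≤ δ → Valued.v y' ≤ δ →
      Valued.v (T y - T y') ≤ δ * Valued.v (y - y') := by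
    intro y y' hy hy'
    have e : T y - T y' = (-(y + y')) * (y - y') := by
      simp only [T]
      ring
    rw [e, map_mul, Valuation.map_neg]
    refine mul_le_mul_left ?_ _
    exact (Valued.v.map_add _ _).trans (max_le hy hy')
  have hA : ∀ n, Valued.v (z n) ≤ δ := by
    intro n
    induction n with
    | zero => rw [z0, map_zero]; exact zero_le
    | succ n ih =>
      rw [zs]
      simp only [T]
      refine (Valued.v.map_sub _ _).trans (max_le le_rfl ?_)
      rw [map_pow, pow_two]
      exact (mul_le_mul' ih (ih.trans hc.le)).trans (mul_one _).le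
  have hB : ∀ n, Valued.v (z (n + 1) - z n) ≤ Valued.v (c ^ (n + 1)) := by
    intro n
    induction n with
    | zero =>
      rw [zero_add, pow_one, zs, z0]
      simp only [T]
      rw [zero_pow two_ne_zero, sub_zero, sub_zero]
    | succ n ih =>
      have h3 := hT (z (n + 1)) (z n) (hA _) (hA _)
      rw [← zs, ← zs] at h3
      refine h3.trans ?_
      rw [pow_succ' c, map_mul]
      exact mul_le_mul_right ih _
  haveI := nonarch' (L := L)
  have hlim : Tendsto (fun n => z (n + 1) - z n) atTop (𝓝 0) := by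
    have h3 : Tendsto (fun n : ℕ => c ^ (n + 1)) atTop (𝓝 0) :=
      (Valued.tendsto_zero_pow_of_v_lt_one hc).comp (tendsto_add_atTop_nat 1)
    rw [(Valued.hasBasis_nhds_zero L _).tendsto_right_iff] at h3 ⊢
    intro γ hγ
    filter_upwards [h3 γ hγ] with n hn
    have h4 : (Valued.v (R := L)).restrict (z (n + 1) - z n) ≤
        (Valued.v (R := L)).restrict (c ^ (n + 1)) :=
      (Valuation.restrict_le_iff _).2 (hB n)
    exact lt_of_le_of_lt h4 hn
  have hcau : CauchySeq z := NonarchimedeanAddGroup.cauchySeq_of_tendsto_sub_nhds_zero hlim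
  obtain ⟨w, hw⟩ := cauchySeq_tendsto_of_complete hcau
  have hTc : Continuous T := by
    simp only [T]
    fun_prop
  have hw1 : Tendsto (fun n => z (n + 1)) atTop (𝓝 w) := hw.comp (tendsto_add_atTop_nat 1)
  have hw2 : Tendsto (fun n => z (n + 1)) atTop (𝓝 (T w)) := by
    simp only [zs]
    exact (hTc.tendsto w).comp hw
  haveI : T2Space L := inferInstance
  have hfix : T w = w := tendsto_nhds_unique hw2 hw1
  refine ⟨w, ?_⟩
  have : c - w ^ 2 = w := hfix
  linear_combination -this

/-- the elements congruent to one modulo `4 m` are squares -/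
theorem sq_of_four [CompleteSpace L] [T0Space L] (h2 : (2 : L) ≠ 0) (x : L)
    (hx : Valued.v (x - 1) < Valued.v (4 : L)) : IsSquare x := by
  have h4 : (4 : L) ≠ 0 := by
    have e : (4 : L) = 2 * 2 := by norm_num
    rw [e]
    exact mul_ne_zero h2 h2
  obtain ⟨z, hz⟩ := as_root ((x - 1) / 4) (by
    rw [map_div₀]
    have h5 : (0 : WithZero (Multiplicative ℤ)) < Valued.v (4 : L) :=
      zero_lt_iff.2 ((Valuation.ne_zero_iff _).2 h4)
    rw [div_lt_one₀ h5]
    exact hx)
  refine ⟨1 + 2 * z, ?_⟩
  field_simp at hz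
  linear_combination -hz

end

end Pool.Agent.L0h23.EV
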