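import Pool.Agent.L0h23.EV.TamB
import Pool.Agent.L0h23.EV.Hen
import Pool.Agent.L0h23.EV.Ser
import Pool.Agent.L0h4.TA.Core

/-!
# The Tamagawa numbers and the minimality of the twists of `X_0(49)` by `D ≡ 2, 3 mod 4`
-/

set_option autoImplicit false
set_option linter.unusedSectionVars false

namespace Pool.Agent.L0h23.EV

open Pool.Agent.Y698 Pool.Agent.L0h4.TW Pool.Agent.L0h4.TA
open NumberField IsDedekindDomain IsCyclotomicExtension.Rat WithZero WeierstrassCurve
open Pool.Agent.H921R2.TatePole Pool.Agent.H82R3.EK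
open Pool.Agent.TH841.SH.D (Pt act)

section place

variable (v : HeightOneSpectrum (𝓞 ℚ))

/-- the numbers prime to the residue characteristic -/
lemma valn {n : ℕ} (hn : ¬ (below v : ℕ) ∣ n) : v.valuation ℚ (n : ℚ) = 1 := by
  have e2 : (n : ℚ) = algebraMap (𝓞 ℚ) ℚ ((n : ℕ) : 𝓞 ℚ) := by rw [map_natCast]
  rw [e2]
  apply le_antisymm (v.valuation_le_one _)
  by_contra hlt
  push Not at hlt
  have h1 : ((n : ℕ) : 𝓞 ℚ) ∈ v.asIdeal := (v.valuation_lt_one_iff_mem (K := ℚ) _).1 hlt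
  have h2 : (((below v : ℕ) : ℕ) : 𝓞 ℚ) ∈ v.asIdeal := (nm_eq v).2.2
  have hcop : IsCoprime ((below v : ℕ) : ℤ) (n : ℤ) :=
    Nat.isCoprime_iff_coprime.2 (((below v).2.coprime_iff_not_dvd).2 hn)
  obtain ⟨s, t, hst⟩ := hcop
  have h3 := congrArg (fun z : ℤ => (z : 𝓞 ℚ)) hst
  push_cast at h3
  have h4 : (1 : 𝓞 ℚ) ∈ v.asIdeal := by
    rw [← h3]
    exact v.asIdeal.add_mem (v.asIdeal.mul_mem_left _ h2) (v.asIdeal.mul_mem_left _ h1)
  exact v.isPrime.ne_top ((Ideal.eq_top_iff_one _).2 h4)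

/-- the prime divisors of a squarefree number -/
lemma valD {D : ℕ} (hsf : Squarefree D) (hd : (below v : ℕ) ∣ D) :
    v.valuation ℚ (D : ℚ) = exp (-1) := by
  obtain ⟨m, hm⟩ := hd
  have hpm : ¬ (below v : ℕ) ∣ m := by
    intro hd
    have h3 : (below v : ℕ) * (below v : ℕ) ∣ D := by
      rw [hm]
      exact mul_dvd_mul_left _ hd
    exact (below v).2.one_lt.ne' (Nat.isUnit_iff.1 (hsf _ h3))
  rw [hm]
  push_cast
  rw [map_mul, val_Q, valn v hpm, mul_one]

lemma embn (n : ℕ) : (Valued.v : Valuation (v.adicCompletion ℚ) ℤᵐ⁰) (n : v.adicCompletion ℚ) =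
    v.valuation ℚ (n : ℚ) := by
  have h4 := val_emb v (n : ℚ)
  rw [map_natCast] at h4
  exact h4

/-- the residue field at two -/
lemma res2 (h2 : (below v : ℕ) = 2) (x : v.adicCompletion ℚ)
    (hx : (Valued.v : Valuation (v.adicCompletion ℚ) ℤᵐ⁰) x ≤ 1) :
    (Valued.v : Valuation (v.adicCompletion ℚ) ℤᵐ⁰) (x ^ 2 - x) ≤ exp (-1) := by
  set w : Valuation (v.adicCompletion ℚ) ℤᵐ⁰ := Valued.v with hw
  obtain ⟨y, hy⟩ := Pool.Agent.H723R3.exists_approx_int (R := 𝓞 ℚ) v
    ((HeightOneSpectrum.mem_adicCompletionIntegers (𝓞 ℚ) ℚ v).2 hx) 1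
  rw [Units.val_one] at hy
  set Y : v.adicCompletion ℚ := algebraMap (𝓞 ℚ) (v.adicCompletion ℚ) y with hY
  have e0 : Y = algebraMap ℚ (v.adicCompletion ℚ) (algebraMap (𝓞 ℚ) ℚ y) := by
    rw [hY, ← IsScalarTower.algebraMap_apply]
  have hcard : Nat.card (𝓞 ℚ ⧸ v.asIdeal) = 2 := by rw [card_quo, deg_Q, pow_one, h2]
  have hfin : Finite (𝓞 ℚ ⧸ v.asIdeal) := Nat.finite_of_card_ne_zero (by rw [hcard]; norm_num)
  have hmem : y ^ 2 - y ∈ v.asIdeal := by
    rw [← Ideal.Quotient.eq_zero_iff_mem, map_sub, map_pow, sub_eq_zero]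
    let _ := Ideal.Quotient.field v.asIdeal
    have := Fintype.ofFinite (𝓞 ℚ ⧸ v.asIdeal)
    have h4 := FiniteField.pow_card (Ideal.Quotient.mk v.asIdeal y)
    rw [← Nat.card_eq_fintype_card, hcard] at h4
    exact h4
  have h5 : w (Y ^ 2 - Y) < 1 := by
    have e : Y ^ 2 - Y = algebraMap ℚ (v.adicCompletion ℚ) (algebraMap (𝓞 ℚ) ℚ (y ^ 2 - y)) := by
      rw [map_sub, map_pow, map_sub, map_pow, ← e0]
    rw [e, hw, val_emb]
    exact (v.valuation_lt_one_iff_mem (K := ℚ) _).2 hmem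
  have h6 : w (x ^ 2 - x) < 1 := by
    have e : x ^ 2 - x = (Y ^ 2 - Y) + -((Y - x) * ((Y - x) + 2 * x - 1)) := by ring
    rw [e]
    refine vaddl h5 ?_
    rw [Valuation.map_neg]
    refine vmulr hy (vsub (vadd (le_of_lt hy) (vmul ?_ hx)) (by rw [map_one]))
    exact_mod_cast vnat w 2
  by_cases h0 : w (x ^ 2 - x) = 0
  · rw [h0]; exact zero_le
  · obtain ⟨k, hk⟩ : ∃ k : ℤ, w (x ^ 2 - x) = exp k := ⟨log _, (exp_log h0).symm⟩
    rw [hk] at h6 ⊢
    rw [← exp_zero, exp_lt_exp] at h6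
    rw [exp_le_exp]
    omega

/-- the curve over the completion -/
lemma veL {D : ℕ} (hD : D ≠ 0) :
    VE ((WX ℚ D).baseChange (v.adicCompletion ℚ)) (D : v.adicCompletion ℚ) := by
  have hW : (WX ℚ D).baseChange (v.adicCompletion ℚ) = WX (v.adicCompletion ℚ) D :=
    WX_map D (algebraMap ℚ (v.adicCompletion ℚ))
  have hn : (D : v.adicCompletion ℚ) ≠ 0 := by
    have := cz_compl v
    exact Nat.cast_ne_zero.2 hD
  rw [hW]
  exact ⟨rfl, rfl, rfl, rfl, rfl, hn⟩

/-- the data at two -/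
lemma at2 (h2 : (below v : ℕ) = 2) {D : ℕ} (h : AdmE D) :
    ∃ a : v.adicCompletion ℚ, At2 (Valued.v : Valuation (v.adicCompletion ℚ) ℤᵐ⁰)
      (D : v.adicCompletion ℚ) a := by
  have := cz_compl v
  set w : Valuation (v.adicCompletion ℚ) ℤᵐ⁰ := Valued.v with hw
  have w2 : w 2 = exp (-1) := by
    have h3 := val_Q v
    rw [h2, ← embn] at h3
    exact_mod_cast h3
  have w8 : w 8 = exp (-3) := by
    have e : (8 : v.adicCompletion ℚ) = 2 ^ 3 := by norm_num
    rw [e, map_pow, w2, ← exp_nsmul]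
    simp
  have w4 : w 4 = exp (-2) := by
    have e : (4 : v.adicCompletion ℚ) = 2 ^ 2 := by norm_num
    rw [e, map_pow, w2, ← exp_nsmul]
    simp
  have hH : ∀ x : v.adicCompletion ℚ, w (x - 1) ≤ exp (-3) → IsSquare x := by
    intro x hx
    refine sq_of_four two_ne_zero x ?_
    refine lt_of_le_of_lt hx ?_
    rw [← hw, w4, exp_lt_exp]
    norm_num
  obtain ⟨s, hs⟩ := hH (-7) (by
    have e : (-7 - 1 : v.adicCompletion ℚ) = -8 := by norm_num
    rw [e, Valuation.map_neg, w8])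
  have key : ∃ a : v.adicCompletion ℚ, a ^ 2 = a - 2 ∧ w a < 1 := by
    have ha0 : ((1 + s) / 2) ^ 2 = (1 + s) / 2 - 2 := by
      field_simp
      linear_combination -hs
    set a0 := (1 + s) / 2 with ha
    by_cases hlt : w a0 < 1
    · exact ⟨a0, ha0, hlt⟩
    · refine ⟨1 - a0, by linear_combination ha0, ?_⟩
      push Not at hlt
      have h3 : w a0 * w (1 - a0) = exp (-1) := by
        rw [← map_mul, ← w2]
        congr 1
        linear_combination -ha0
      by_contra hcon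
      push Not at hcon
      have h4 : (1 : ℤᵐ⁰) ≤ w a0 * w (1 - a0) := one_le_mul hlt hcon
      rw [h3, ← exp_zero, exp_le_exp] at h4
      omega
  obtain ⟨a, ha, hva⟩ := key
  refine ⟨a, ⟨w2, hH, fun x hx => res2 v h2 x hx, ha, hva, ?_⟩⟩
  rcases h.m4 with h4 | h4
  · right
    rw [hw, embn]
    exact valD v h.sf (by rw [h2]; omega)
  · left
    constructor
    · rw [hw, embn]
      exact valn v (by rw [h2]; omega)
    · obtain ⟨e, rfl⟩ : ∃ e, D = 3 + 4 * e := ⟨D / 4, by omega⟩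
      have e3 : ((3 + 4 * e : ℕ) : v.adicCompletion ℚ) - 3 = 4 * (e : v.adicCompletion ℚ) := by
        push_cast
        ring
      rw [e3, map_mul, w4]
      calc exp (-2) * w (e : v.adicCompletion ℚ) ≤ exp (-2) * 1 := mul_le_mul' le_rfl (vnat w e)
        _ = exp (-2) := mul_one _

/-- the local numbers -/
noncomputable def Ft (D p : ℕ) : ℕ :=
  open Classical in
  if p = 2 then 4 else if p = 7 then 2 else if p ∣ D then (if IsSquare (-7 : ZMod p) then 4 else 2)
  else 1

/-- the Tamagawa numbers -/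
theorem tam_WX {D : ℕ} (h : AdmE D) : tam (WX ℚ D) v = Ft D (below v : ℕ) := by
  have := cz_compl v
  have hpr : (below v : ℕ).Prime := (below v).2
  have S := veL v h.sf.ne_zero
  have hvb := val_Q v
  unfold Ft
  split_ifs with c2 c7 cD cs
  · obtain ⟨a, A⟩ := at2 v c2 h
    exact @idxE_place2 _ _ _ _ _ _ S (Classical.decEq _) _ A
  · rw [c7] at hvb
    refine @idxE_seven _ _ _ _ _ S (Classical.decEq _) Valued.v ?_ ?_
    · rw [val_seven]; exact_mod_cast hvb
    · rw [embn]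
      exact valn v (by rw [c7]; exact h.n7)
  · have hsp : SpP (below v : ℕ) := ⟨hpr, hpr.mod_two_eq_one_iff_ne_two.2 c2, c7, cs⟩
    have h7 := val7_od v hsp.od rfl
    have h2 := val2_od v hsp.od rfl
    obtain ⟨z, hz⟩ := m7_splitX v hsp rfl
    refine @idxE_four _ _ _ _ _ S (Classical.decEq _) Valued.v ?_ ?_ ?_ ((1 + z) / 2) ?_
    · have h4 := val_emb v 2
      rw [h2, map_ofNat] at h4
      exact h4
    · rw [val_seven, h7]
    · rw [embn]
      exact valD v h.sf cD
    · field_simp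
      linear_combination -hz
  · have hin : InP (below v : ℕ) := ⟨hpr, hpr.mod_two_eq_one_iff_ne_two.2 c2, cs⟩
    have h7 := val7_od v hin.od rfl
    have h2 := val2_od v hin.od rfl
    refine @idxE_two _ _ _ _ _ S (Classical.decEq _) Valued.v ?_ ?_ ?_ (hensel_sq v h2)
      (m7_nsqX v hin rfl (deg_Q v))
    · have h4 := val_emb v 2
      rw [h2, map_ofNat] at h4
      exact h4
    · rw [val_seven, h7]
    · rw [embn]
      exact valD v h.sf cD
  · have h2 : v.valuation ℚ 2 = 1 := by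
      exact_mod_cast valn v (n := 2) (fun hd => c2 ((Nat.prime_dvd_prime_iff_eq hpr Nat.prime_two).1 hd))
    have h7 : v.valuation ℚ 7 = 1 := by
      exact_mod_cast valn v (n := 7) (fun hd => c7 ((Nat.prime_dvd_prime_iff_eq hpr (by norm_num)).1 hd))
    refine @idxE_one _ _ _ _ _ _ _ S (Classical.decEq _) ?_ ?_ ?_
    · have h4 := val_emb v 2
      rw [h2, map_ofNat] at h4
      exact h4
    · rw [val_seven, h7]
    · rw [embn]
      exact valn v cD

/-- minimality -/
theorem minimal_WX {D : ℕ} (h : AdmE D) : MinimalAt (WX ℚ D) v := by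
  have hpr : (below v : ℕ).Prime := (below v).2
  have hvb := val_Q v
  by_cases c2 : (below v : ℕ) = 2
  · intro C h1 h2 h3 h4 h6
    have hv2 : v.valuation ℚ 2 = exp (-1) := by
      rw [c2] at hvb
      exact_mod_cast hvb
    have h7 : v.valuation ℚ 7 = 1 := by exact_mod_cast valn v (n := 7) (by rw [c2]; norm_num)
    refine minimal_two hv2 ?_ h7 ?_ C h1 h2 h3 h4 h6 (delta_int _ h1 h2 h3 h4 h6)
    · intro x hx
      rw [hv2, ← val_emb]
      rw [← val_emb] at hx
      have := res2 v c2 _ hx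
      rw [map_sub, map_pow]
      exact this
    · rcases h.m4 with h4 | h4
      · right
        exact ⟨h4, valD v h.sf (by rw [c2]; omega)⟩
      · left
        exact ⟨h4, valn v (by rw [c2]; omega)⟩
  have h2 : v.valuation ℚ 2 = 1 := by
    exact_mod_cast valn v (n := 2) (fun hd => c2 ((Nat.prime_dvd_prime_iff_eq hpr Nat.prime_two).1 hd))
  have hΔ : v.valuation ℚ (WX ℚ D).Δ = v.valuation ℚ 7 ^ 3 * v.valuation ℚ (D : ℚ) ^ 6 := by
    rw [WX_Δ, Valuation.map_neg, map_mul, map_mul, map_pow, map_pow, map_pow, h2, one_pow, one_mul]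
  by_cases c7 : (below v : ℕ) = 7
  · apply minimal_of (k := 3) (by norm_num)
    have h7 : v.valuation ℚ 7 = exp (-1) := by
      rw [c7] at hvb
      exact_mod_cast hvb
    rw [hΔ, h7, valn v (by rw [c7]; exact h.n7), one_pow, mul_one, ← exp_nsmul]
    simp
  have h7 : v.valuation ℚ 7 = 1 := by
    exact_mod_cast valn v (n := 7) (fun hd => c7 ((Nat.prime_dvd_prime_iff_eq hpr (by norm_num)).1 hd))
  by_cases cD : (below v : ℕ) ∣ D
  · apply minimal_of (k := 6) (by norm_num)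
    rw [hΔ, h7, valD v h.sf cD, one_pow, one_mul, ← exp_nsmul]
    simp
  · apply minimal_of (k := 0) (by norm_num)
    rw [hΔ, h7, valn v cD, one_pow, one_pow, mul_one]
    simp

end place

/-- there is exactly one place above every prime number -/
lemma below_bij : Function.Bijective (below (K := ℚ)) := by
  constructor
  · intro v w hvw
    have h := Fintype.card_le_one_iff_subsingleton.1 (card_Q (below w)).le
    have := @Subsingleton.elim _ h ⟨v, hvw⟩ ⟨w, rfl⟩
    exact congrArg Subtype.val this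
  · intro q
    have h := card_Q q
    rw [Fintype.card_eq_one_iff] at h
    obtain ⟨v, -⟩ := h
    exact ⟨v.1, v.2⟩

/-- **the product of the Tamagawa numbers**, `m` is the odd part of `D` -/
theorem prodtam_WX {D m : ℕ} (h : AdmE D) (hm : D = m ∨ D = 2 * m) (hmo : m % 2 = 1) :
    ∏ᶠ v : HeightOneSpectrum (𝓞 ℚ), tam (WX ℚ D) v = 2 ^ (3 + ((QD m).card + 2 * (PD m).card)) := by
  classical
  have hD0 : D ≠ 0 := h.sf.ne_zero
  have hm0 : m ≠ 0 := by omega
  have hmD : m ∣ D := by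
    rcases hm with h1 | h1
    · rw [h1]
    · exact ⟨2, by rw [h1]; ring⟩
  have hdv : ∀ p : ℕ, p.Prime → p ≠ 2 → (p ∣ D ↔ p ∣ m) := by
    intro p hp hp2
    rcases hm with h1 | h1
    · rw [h1]
    · rw [h1, hp.dvd_mul]
      constructor
      · rintro (h2 | h2)
        · exact absurd ((Nat.prime_dvd_prime_iff_eq hp Nat.prime_two).1 h2) hp2
        · exact h2
      · exact Or.inr
  have h2S : 2 ∉ m.primeFactors := fun hc => by
    have := Nat.dvd_of_mem_primeFactors hc
    omega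
  have h7S : 7 ∉ m.primeFactors := fun hc => h.n7 ((Nat.dvd_of_mem_primeFactors hc).trans hmD)
  have e1 : ∏ᶠ v : HeightOneSpectrum (𝓞 ℚ), tam (WX ℚ D) v = ∏ᶠ q : Nat.Primes, Ft D (q : ℕ) :=
    (finprod_congr fun v => tam_WX v h).trans
      (finprod_comp (g := fun q : Nat.Primes => Ft D (q : ℕ)) (below (K := ℚ)) below_bij)
  have e2 : ∏ᶠ q : Nat.Primes, Ft D (q : ℕ) = ∏ᶠ (p : ℕ) (_ : p.Prime), Ft D p :=
    finprod_subtype_eq_finprod_cond (f := fun p => Ft D p) Nat.Prime
  have e3 : ∏ᶠ (p : ℕ) (_ : p.Prime), Ft D p = ∏ p ∈ insert 2 (insert 7 m.primeFactors), Ft D p := by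
    refine finprod_cond_eq_prod_of_cond_iff _ ?_
    intro p hp
    rw [Finset.mem_insert, Finset.mem_insert]
    constructor
    · intro hpp
      by_contra hcon
      push Not at hcon
      obtain ⟨h2, h7, h3⟩ := hcon
      apply hp
      unfold Ft
      rw [if_neg h2, if_neg h7, if_neg]
      intro hd
      exact h3 (Nat.mem_primeFactors.2 ⟨hpp, (hdv p hpp h2).1 hd, hm0⟩)
    · rintro (rfl | rfl | h3)
      · exact Nat.prime_two
      · norm_num
      · exact Nat.prime_of_mem_primeFactors h3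
  rw [e1, e2, e3, Finset.prod_insert (by
    rw [Finset.mem_insert]
    rintro (h3 | h3)
    · omega
    · exact h2S h3), Finset.prod_insert h7S]
  have e4 : Ft D 2 = 4 := by unfold Ft; rw [if_pos rfl]
  have e5 : Ft D 7 = 2 := by unfold Ft; rw [if_neg (by norm_num), if_pos rfl]
  have e6 : ∏ p ∈ m.primeFactors, Ft D p = 2 ^ (QD m).card * 4 ^ (PD m).card := by
    rw [Finset.prod_congr rfl (g := fun p => if IsSquare (-7 : ZMod p) then 4 else 2),
      Finset.prod_ite, Finset.prod_const, Finset.prod_const, mul_comm]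
    · rfl
    · intro p hp
      have hpp := Nat.prime_of_mem_primeFactors hp
      have h2 : p ≠ 2 := fun hc => h2S (hc ▸ hp)
      have h7 : p ≠ 7 := fun hc => h7S (hc ▸ hp)
      unfold Ft
      rw [if_neg h2, if_neg h7, if_pos ((hdv p hpp h2).2 (Nat.dvd_of_mem_primeFactors hp))]
  rw [e4, e5, e6]
  have e7 : (4 : ℕ) = 2 ^ 2 := by norm_num
  rw [e7, ← pow_mul, pow_add, pow_add]
  ring

end Pool.Agent.L0h23.EV
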