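import Pool.Agent.Y698.Az
import Pool.Agent.L0h23.EV.Two

/-!
# The L-series of the twists of `X_0(49)` by `D ≡ 2, 3 mod 4`
-/

set_option autoImplicit false
set_option linter.unusedSectionVars false

namespace Pool.Agent.L0h23.EV

open Pool.Agent.Y698
open NumberField IsDedekindDomain WeierstrassCurve Pool.Agent.W189.NF IsCyclotomicExtension.Rat
open Pool.Agent.H921R2.TatePole Pool.Agent.H82R3.EK

/-- the numbers `D` -/
structure AdmE (D : ℕ) : Prop where
  sf : Squarefree D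
  m4 : D % 4 = 2 ∨ D % 4 = 3
  n7 : ¬ 7 ∣ D

/-- the value at the prime number `p` of the quadratic character of the field `ℚ(√D)`,
`D ≡ 2, 3 mod 4` -/
noncomputable def ch (D p : ℕ) : ℂ := if p = 2 then 0 else ((jacobiSym D p : ℤ) : ℂ)

/-- the trace of Frobenius of the twist over a prime field -/
theorem trace_E (k : Type) [Field k] [Finite k] {p : ℕ} (hp : p.Prime) (hp2 : p ≠ 2) (hp7 : p ≠ 7)
    (hk : Nat.card k = p) {D : ℕ} (hpD : ¬ p ∣ D) :
    (((Nat.card k : ℤ) - Nat.card (AP (WX k D)) : ℤ) : ℂ) = ((jacobiSym D p : ℤ) : ℂ) * bc p := by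
  classical
  have : Fact p.Prime := ⟨hp⟩
  let _ : Fintype k := Fintype.ofFinite k
  have hk' : Fintype.card k = p := by rw [← Nat.card_eq_fintype_card, hk]
  have hchar : CharP k p := by
    rw [CharP.charP_iff_prime_eq_zero hp]
    have h1 : ((Fintype.card k : ℕ) : k) = 0 := Nat.cast_card_eq_zero k
    rwa [hk'] at h1
  have hpp : Prime (p : ℤ) := Nat.prime_iff_prime_int.1 hp
  have hpD' : ¬ (p : ℤ) ∣ (D : ℤ) := fun h => hpD (by exact_mod_cast h)
  have e0 : Nat.card (AP (WX k D)) = Nat.card {x : k × k // x.2 ^ 2 = x.1 ^ 3 +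
      ((-35 * (D : ℤ) ^ 2 : ℤ) : k) * x.1 + ((-98 * (D : ℤ) ^ 3 : ℤ) : k)} := by
    apply Nat.card_congr
    apply Equiv.subtypeEquivRight
    rintro ⟨x, y⟩
    rw [WeierstrassCurve.Affine.equation_iff]
    unfold WX
    simp only
    push_cast
    constructor
    · intro h
      linear_combination h
    · intro h
      linear_combination h
  rw [e0]
  let _ : Algebra (ZMod p) k := ZMod.algebra _ p
  have hext := W165.CE.points_ext hp2 (-35 * (D : ℤ) ^ 2) (-98 * (D : ℤ) ^ 3) (by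
    intro hdv
    have h3 : (4 * (-35 * (D : ℤ) ^ 2) ^ 3 + 27 * (-98 * (D : ℤ) ^ 3) ^ 2) =
        (D : ℤ) ^ 6 * (2 ^ 8 * 7 ^ 3) := by ring
    rw [h3] at hdv
    rcases hpp.dvd_or_dvd hdv with h4 | h4
    · exact hpD' (hpp.dvd_of_dvd_pow h4)
    · have h4 : p ∣ 2 ^ 8 * 7 ^ 3 := by exact_mod_cast h4
      rcases (Nat.Prime.dvd_mul hp).1 h4 with h5 | h5
      · exact hp2 ((Nat.prime_dvd_prime_iff_eq hp Nat.prime_two).1 (hp.dvd_of_dvd_pow h5))
      · exact hp7 ((Nat.prime_dvd_prime_iff_eq hp (by norm_num)).1 (hp.dvd_of_dvd_pow h5)))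
    (k := k)
  have hfr : Module.finrank (ZMod p) k = 1 := by
    have h5 := Module.card_eq_pow_finrank (K := ZMod p) (V := k)
    rw [ZMod.card, hk'] at h5
    refine (Nat.pow_right_injective hp.two_le ?_).symm
    beta_reduce
    rw [pow_one]
    exact h5
  have hluc : ∀ a b : ℤ, luc a b 1 = a := fun a b => by simp [luc]
  rw [hfr, hluc, ← Nat.card_eq_fintype_card] at hext
  rw [hext]
  have hF : ringChar (ZMod p) ≠ 2 := by rwa [ZMod.ringChar_zmod_n]
  have hD0 : ((D : ℤ) : ZMod p) ≠ 0 := by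
    intro h
    exact hpD' ((ZMod.intCast_zmod_eq_zero_iff_dvd _ _).1 h)
  have htw := count_tw hF ((-35 : ℤ) : ZMod p) ((-98 : ℤ) : ZMod p) hD0
  rw [ZMod.card] at htw
  have e1 : ((p : ℤ) - Nat.card {x : ZMod p × ZMod p // x.2 ^ 2 = x.1 ^ 3 +
      ((-35 * (D : ℤ) ^ 2 : ℤ) : ZMod p) * x.1 + ((-98 * (D : ℤ) ^ 3 : ℤ) : ZMod p)}) =
      quadraticChar (ZMod p) ((D : ℤ) : ZMod p) * ((p : ℤ) - Nat.card (Aff (ZMod p))) := by
    unfold Aff
    rw [← htw]
    push_cast
    rfl
  rw [e1]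
  have hqc : quadraticChar (ZMod p) ((D : ℤ) : ZMod p) = jacobiSym (D : ℤ) p := by
    have h3 : quadraticChar (ZMod p) ((D : ℤ) : ZMod p) = legendreSym p (D : ℤ) := rfl
    rw [h3, jacobiSym.legendreSym.to_jacobiSym]
  rw [hqc]
  push_cast
  have hb := bc_odd hp hp2 hp7
  push_cast at hb
  rw [← hb]

section Local

variable (R : Type) [CommRing R] [IsDomain R] [IsDiscreteValuationRing R] {L : Type}
  [Field L] [Algebra R L] [IsFractionRing R L]

open IsDiscreteValuationRing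

lemma int_coef {W : WeierstrassCurve L} [hW : IsIntegral R W] :
    (maximalIdeal R).valuation L W.a₁ ≤ 1 ∧ (maximalIdeal R).valuation L W.a₂ ≤ 1 ∧
    (maximalIdeal R).valuation L W.a₃ ≤ 1 ∧ (maximalIdeal R).valuation L W.a₄ ≤ 1 ∧
    (maximalIdeal R).valuation L W.a₆ ≤ 1 ∧ (maximalIdeal R).valuation L W.Δ ≤ 1 := by
  have hR : ∀ a : R, (maximalIdeal R).valuation L (algebraMap R L a) ≤ 1 := fun a =>
    IsDedekindDomain.HeightOneSpectrum.valuation_le_one _ a
  obtain ⟨r, hr⟩ := Δ_integral_of_isIntegral R W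
  refine ⟨?_, ?_, ?_, ?_, ?_, ?_⟩
  · rw [← integralModel_a₁_eq R W]; exact hR _
  · rw [← integralModel_a₂_eq R W]; exact hR _
  · rw [← integralModel_a₃_eq R W]; exact hR _
  · rw [← integralModel_a₄_eq R W]; exact hR _
  · rw [← integralModel_a₆_eq R W]; exact hR _
  · rw [← hr]; exact hR _

/-- the local factor at two -/
theorem min_add2 (h2 : (maximalIdeal R).valuation L 2 = WithZero.exp (-1))
    (hres : ∀ x : L, (maximalIdeal R).valuation L x ≤ 1 →
      (maximalIdeal R).valuation L (x ^ 2 - x) ≤ (maximalIdeal R).valuation L 2)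
    (h7 : (maximalIdeal R).valuation L 7 = 1) {D : ℕ}
    (hD : (D % 4 = 3 ∧ (maximalIdeal R).valuation L (D : L) = 1) ∨
      (D % 4 = 2 ∧ (maximalIdeal R).valuation L (D : L) = WithZero.exp (-1))) :
    aLoc R (WX L D) = 0 ∧ eLoc R (WX L D) = 0 := by
  set v := (maximalIdeal R).valuation L with hv
  obtain ⟨C, hC⟩ : ∃ C : VariableChange L, (WX L D).minimal R = C • WX L D := ⟨_, rfl⟩
  have hmin : IsMinimal R ((WX L D).minimal R) := inferInstance
  obtain ⟨i1, i2, i3, i4, i6, iΔ⟩ := int_coef R (W := (WX L D).minimal R)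
  have hlt : v ((WX L D).minimal R).Δ < 1 := by
    rw [hC] at i1 i2 i3 i4 i6 iΔ ⊢
    refine (minimal_two h2 hres h7 hD C i1 i2 i3 i4 i6 iΔ).trans_lt ?_
    rw [WX_Δ, Valuation.map_neg, map_mul, map_mul, map_pow, map_pow, map_pow, h2, h7, one_pow,
      mul_one]
    have h9 : v (D : L) ^ 6 ≤ 1 := by
      apply pow_le_one'
      exact vnat' D
    calc WithZero.exp (-1 : ℤ) ^ 12 * v (D : L) ^ 6 ≤ WithZero.exp (-1 : ℤ) ^ 12 * 1 :=
          mul_le_mul' le_rfl h9
      _ < 1 := by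
        rw [mul_one, ← WithZero.exp_nsmul, ← WithZero.exp_zero, WithZero.exp_lt_exp]
        norm_num
  have hng : ¬ ((WX L D).minimal R).HasGoodReduction R := fun h => by
    have h1 := h.goodReduction
    exact absurd h1 hlt.ne
  have hnm : ¬ ((WX L D).minimal R).HasMultiplicativeReduction R := by
    intro h
    have h1 := h.multiplicativeReduction
    set u : L := ((C.u⁻¹ : Lˣ) : L) with hu
    have hd : ((WX L D).minimal R).Δ = u ^ 12 * (WX L D).Δ := by rw [hC, variableChange_Δ]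
    have hc : ((WX L D).minimal R).c₄ = u ^ 4 * (WX L D).c₄ := by rw [hC, variableChange_c₄]
    have h3 : ((WX L D).minimal R).c₄ ^ 3 = -3375 * ((WX L D).minimal R).Δ := by
      rw [hc, hd, WX_Δ, WX_c₄]
      ring
    have h5 := congrArg v h3
    have h6 : v ((WX L D).minimal R).c₄ = 1 := h1
    rw [map_pow, map_mul, h6, one_pow, Valuation.map_neg] at h5
    have h8 : v (3375 : L) ≤ 1 := by exact_mod_cast (vnat' (v := v) 3375)
    have h7 : v (3375 : L) * v ((WX L D).minimal R).Δ < 1 :=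
      lt_of_le_of_lt (mul_le_of_le_one_left' h8) hlt
    rw [← h5] at h7
    exact lt_irrefl _ h7
  have hns : ¬ ((WX L D).minimal R).HasSplitMultiplicativeReduction R := fun h =>
    hnm h.toHasMultiplicativeReduction
  unfold aLoc eLoc
  rw [if_neg hng, if_neg hng, if_neg hns, if_neg hnm]
  exact ⟨rfl, rfl⟩

end Local

end Pool.Agent.L0h23.EV
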