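import Pool.Agent.Y698.Ug

/-!
# The real period of the twists of `X_0(49)` by `D ≡ 2, 3 mod 4`
-/

set_option autoImplicit false
set_option linter.unusedSectionVars false

namespace Pool.Agent.L0h23.EV

open Pool.Agent.Y698
open MeasureTheory

/-- the cubic polynomial `4 x³ + b₂ x² + 2 b₄ x + b₆` of the equation
`y² = x³ - 35 D² x - 98 D³` -/
noncomputable def psE (D : ℕ) (x : ℝ) : ℝ := 4 * x ^ 3 - 140 * D ^ 2 * x - 392 * D ^ 3

lemma psE_eq (D : ℕ) (x : ℝ) : psE D (4 * x - D) = 8 ^ 2 * psD D x := by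
  unfold psE psD
  ring

lemma int_all (f : ℝ → ℝ) :
    ∫ x in {x : ℝ | 0 < f x}, 2 / Real.sqrt (f x) = ∫ x : ℝ, 2 / Real.sqrt (f x) := by
  apply setIntegral_eq_integral_of_forall_compl_eq_zero
  intro x hx
  have h1 : f x ≤ 0 := not_lt.1 hx
  rw [Real.sqrt_eq_zero_of_nonpos h1, div_zero]

/-- the real period integral of the twist -/
theorem real_periodE {D : ℕ} (hD : 0 < D) :
    (∫ x in {x : ℝ | 0 < psE D x}, 2 / Real.sqrt (psE D x)) =
      (∫ x in {x : ℝ | 0 < psiR x}, 2 / Real.sqrt (psiR x)) / (2 * Real.sqrt D) := by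
  have h1 := real_periodD hD
  have h2 : (∫ x in {x : ℝ | 0 < psE D x}, 2 / Real.sqrt (psE D x)) =
      (∫ x in {x : ℝ | 0 < psD D x}, 2 / Real.sqrt (psD D x)) / 2 := by
    rw [int_all (psE D), int_all (fun x => psD D x)]
    have e1 : (∫ x : ℝ, 2 / Real.sqrt (psE D x)) =
        ∫ x : ℝ, (fun y : ℝ => 2 / Real.sqrt (psE D y)) (x + (-(D : ℝ))) :=
      (integral_add_right_eq_self (fun y : ℝ => 2 / Real.sqrt (psE D y)) (-(D : ℝ))).symm
    rw [e1]
    have e2 := Measure.integral_comp_mul_left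
      (fun x : ℝ => (fun y : ℝ => 2 / Real.sqrt (psE D y)) (x + (-(D : ℝ)))) 4
    have e3 : (∫ x : ℝ, (fun x : ℝ => (fun y : ℝ => 2 / Real.sqrt (psE D y)) (x + (-(D : ℝ)))) (4 * x))
        = ∫ x : ℝ, 1 / 8 * (2 / Real.sqrt (psD D x)) := by
      congr 1
      funext x
      beta_reduce
      have e4 : (4 * x + -(D : ℝ)) = 4 * x - D := by ring
      rw [e4, psE_eq, Real.sqrt_mul (by norm_num), Real.sqrt_sq (by norm_num)]
      by_cases h5 : Real.sqrt (psD D x) = 0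
      · rw [h5]
        simp
      · field_simp
    rw [e3, integral_const_mul] at e2
    have e5 : |(4 : ℝ)⁻¹| = 1 / 4 := by norm_num
    rw [e5, smul_eq_mul] at e2
    linarith
  rw [h2, h1]
  field_simp

variable {Γ : Type} [LinearOrderedCommGroupWithZero Γ] {L : PeriodPair} {Ω : ℂ}

/-- the valuation of the real period -/
theorem v_periodE (h : LD L Ω) (v : Valuation ℂ Γ) (h2 : v 2 < 1) {D : ℕ} (hD : 0 < D) :
    v ((∫ x in {x : ℝ | 0 < psE D x}, 2 / Real.sqrt (psE D x) : ℝ) : ℂ) *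
      (v 2 * v ((Real.sqrt D : ℝ) : ℂ)) = v Ω := by
  obtain ⟨k1, k2⟩ := v_periods h v h2
  rw [← k1, ← map_mul, ← map_mul, real_periodE hD]
  congr 1
  have hs : ((Real.sqrt D : ℝ) : ℂ) ≠ 0 := by
    rw [Complex.ofReal_ne_zero]
    exact (Real.sqrt_pos.2 (Nat.cast_pos.2 hD)).ne'
  push_cast
  field_simp

end Pool.Agent.L0h23.EV
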