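import Pool.Agent.Y698.Ua
import Pool.Agent.Y698.Tb
import Pool.Agent.Y698.Lo
import Pool.Agent.L0h75.Ucx

/-!
# The points with nonsingular reduction on `y² = x³ - 35 δ² x - 98 δ³`
-/

set_option autoImplicit false
set_option linter.unusedSectionVars false

namespace Pool.Agent.L0h23.EV

open Pool.Agent.Y698 WeierstrassCurve WithZero

/-- the curve `y² = x³ - 35 δ² x - 98 δ³` -/
structure VE {L : Type} [Field L] (W : WeierstrassCurve L) (δ : L) : Prop where
  h1 : W.a₁ = 0
  h2 : W.a₂ = 0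
  h3 : W.a₃ = 0
  h4 : W.a₄ = -35 * δ ^ 2
  h6 : W.a₆ = -98 * δ ^ 3
  hδ : δ ≠ 0

/-- the equation in the coordinate `X = x - 7 δ` -/
def Eeq' {L : Type} [Field L] (δ X Y : L) : Prop :=
  Y ^ 2 = X ^ 3 + 21 * δ * X ^ 2 + 112 * δ ^ 2 * X

section alg

variable {L : Type} [Field L] {δ : L} {W : WeierstrassCurve L} (S : VE W δ)

include S in
lemma VE.eqn {x y : L} (h : W.toAffine.Equation x y) : y ^ 2 = x ^ 3 - 35 * δ ^ 2 * x - 98 * δ ^ 3 := by
  rw [Affine.equation_iff, S.h1, S.h2, S.h3, S.h4, S.h6] at h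
  linear_combination h

include S in
lemma VE.eeq {x y : L} (h : W.toAffine.Equation x y) : Eeq' δ (x - 7 * δ) y := by
  have := S.eqn h
  unfold Eeq'
  linear_combination this

include S in
lemma VE.w0 [CharZero L] : Wr W (7 * δ) (21 * δ) (112 * δ ^ 2) where
  k1 := S.h1
  k2 := by rw [S.h2]; ring
  k3 := S.h3
  k4 := by rw [S.h4]; ring
  k6 := by rw [S.h6]; ring
  hβ := mul_ne_zero (by norm_num) (pow_ne_zero 2 S.hδ)

/-- one root -/
def ra (δ a : L) : L := δ * (a - 11)

/-- the other root -/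
def rb (δ a : L) : L := -(δ * (a + 10))

lemma ra_sub (δ a : L) : ra δ a - rb δ a = δ * (2 * a - 1) := by unfold ra rb; ring

lemma ra_mul {a : L} (ha : a ^ 2 = a - 2) : ra δ a * rb δ a = 112 * δ ^ 2 := by
  unfold ra rb
  linear_combination (-δ ^ 2) * ha

lemma ra_add (δ a : L) : ra δ a + rb δ a = -21 * δ := by unfold ra rb; ring

lemma two_a_ne [CharZero L] {a : L} (ha : a ^ 2 = a - 2) : 2 * a - 1 ≠ 0 := by
  intro h
  have h1 : (2 * a - 1) ^ 2 = -7 := by linear_combination 4 * ha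
  rw [h, zero_pow two_ne_zero] at h1
  norm_num at h1

lemma ra_ne [CharZero L] {a : L} (ha : a ^ 2 = a - 2) (hδ : δ ≠ 0) : ra δ a ≠ 0 := by
  intro h
  have h1 := ra_mul (δ := δ) ha
  rw [h, zero_mul] at h1
  exact mul_ne_zero (show (112 : L) ≠ 0 by norm_num) (pow_ne_zero 2 hδ) h1.symm

lemma Eeq'.fac {a X Y : L} (ha : a ^ 2 = a - 2) (h : Eeq' δ X Y) :
    Y ^ 2 = X * (X - ra δ a) * (X - rb δ a) := by
  unfold Eeq' at h
  have h1 := ra_mul (δ := δ) ha
  have h2 := ra_add δ a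
  linear_combination h + X ^ 2 * h2 - X * h1

include S in
lemma VE.w1 [CharZero L] {a : L} (ha : a ^ 2 = a - 2) :
    Wr W (7 * δ + ra δ a) (2 * ra δ a - rb δ a) (ra δ a * (ra δ a - rb δ a)) where
  k1 := S.h1
  k2 := by rw [S.h2]; unfold ra rb; ring
  k3 := S.h3
  k4 := by
    rw [S.h4]
    unfold ra rb
    linear_combination δ ^ 2 * ha
  k6 := by
    rw [S.h6]
    unfold ra rb
    linear_combination (-7 * δ ^ 3) * ha
  hβ := by
    refine mul_ne_zero (ra_ne ha S.hδ) ?_
    rw [ra_sub]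
    exact mul_ne_zero S.hδ (two_a_ne ha)

end alg

section val

variable {L : Type} [Field L] {Γ : Type} [LinearOrderedCommGroupWithZero Γ] {v : Valuation L Γ} {δ : L}

lemma y_int' {x y : L} (hd : v δ ≤ 1) (h : y ^ 2 = x ^ 3 - 35 * δ ^ 2 * x - 98 * δ ^ 3)
    (hx : v x ≤ 1) : v y ≤ 1 := by
  by_contra h1
  push Not at h1
  have h35 : v (35 : L) ≤ 1 := by exact_mod_cast vnat v 35
  have h98 : v (98 : L) ≤ 1 := by exact_mod_cast vnat v 98
  have h2 : v (y ^ 2) ≤ 1 := by
    rw [h]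
    exact vsub (vsub (vpow hx 3) (vmul (vmul h35 (vpow hd 2)) hx)) (vmul h98 (vpow hd 3))
  rw [map_pow] at h2
  exact absurd h2 (not_le.2 (one_lt_pow₀ h1 two_ne_zero))

/-- nonsingular reduction -/
def NS (v : Valuation L Γ) (δ x y : L) : Prop :=
  1 < v x ∨ v (0 * y - (3 * x ^ 2 + 2 * 0 * x + -35 * δ ^ 2)) = 1 ∨ v (2 * y + 0 * x + 0) = 1

/-- all points have nonsingular reduction away from `14 δ` -/
theorem good_red' (h2 : v (2 : L) = 1) (h7 : v (7 : L) = 1) (hD : v δ = 1) {x y : L}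
    (h : y ^ 2 = x ^ 3 - 35 * δ ^ 2 * x - 98 * δ ^ 3) : NS v δ x y := by
  rcases lt_or_ge 1 (v x) with hx | hx
  · exact Or.inl hx
  right
  have hy := y_int' hD.le h hx
  have hd := hD.le
  have h3' : v (3 : L) ≤ 1 := by exact_mod_cast vnat v 3
  have h35 : v (-35 : L) ≤ 1 := by
    have := vnat v 35
    rw [Valuation.map_neg]
    exact_mod_cast this
  have e1 : 0 * y - (3 * x ^ 2 + 2 * 0 * x + -35 * δ ^ 2) = -(3 * x ^ 2 - 35 * δ ^ 2) := by ring
  have e2 : 2 * y + 0 * x + 0 = 2 * y := by ring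
  rw [e1, e2, Valuation.map_neg]
  have e1' : 3 * x ^ 2 - 35 * δ ^ 2 = 3 * x ^ 2 + -35 * δ ^ 2 := by ring
  by_contra hcon
  push Not at hcon
  obtain ⟨c1, c2⟩ := hcon
  have l1 : v (3 * x ^ 2 - 35 * δ ^ 2) < 1 := lt_of_le_of_ne (by
    rw [e1']
    exact vadd (vmul h3' (vpow hx 2)) (vmul h35 (vpow hd 2))) c1
  have l2 : v y < 1 := by
    refine lt_of_le_of_ne hy fun h0 => c2 ?_
    rw [map_mul, h2, h0, one_mul]
  have e3 : (87808 : L) * δ ^ 6 = (630 * δ ^ 2 * x - 2646 * δ ^ 3) * y ^ 2 +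
      (-210 * δ ^ 2 * x ^ 2 + 882 * δ ^ 3 * x + 4900 * δ ^ 4) * (3 * x ^ 2 - 35 * δ ^ 2) := by
    rw [h]; ring
  have hn : ∀ n : ℕ, v (n : L) ≤ 1 := vnat v
  have n630 : v (630 : L) ≤ 1 := by exact_mod_cast hn 630
  have n2646 : v (2646 : L) ≤ 1 := by exact_mod_cast hn 2646
  have n210 : v (-210 : L) ≤ 1 := by rw [Valuation.map_neg]; exact_mod_cast hn 210
  have n882 : v (882 : L) ≤ 1 := by exact_mod_cast hn 882
  have n4900 : v (4900 : L) ≤ 1 := by exact_mod_cast hn 4900
  have l3 : v ((87808 : L) * δ ^ 6) < 1 := by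
    rw [e3]
    exact vaddl (vmull (vsub (vmul (vmul n630 (vpow hd 2)) hx) (vmul n2646 (vpow hd 3)))
      (vpowl l2 two_ne_zero))
      (vmull (vadd (vadd (vmul (vmul n210 (vpow hd 2)) (vpow hx 2)) (vmul (vmul n882 (vpow hd 3)) hx))
        (vmul n4900 (vpow hd 4))) l1)
  have e4 : (87808 : L) = 2 ^ 8 * 7 ^ 3 := by norm_num
  rw [e4, map_mul, map_mul, map_pow, map_pow, map_pow, h2, h7, hD] at l3
  simp at l3

/-- the points with nonsingular reduction at the primes dividing `14 δ` -/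
theorem sing_red' (hd : v δ ≤ 1) (h3 : v (2 : L) = 1 ∨ (v (2 : L) < 1 ∧ v (3 : L) = 1))
    (l21 : v (21 * δ) < 1 ∨ v (2 : L) < 1)
    (l112 : v (112 * δ ^ 2) < 1) {x y : L}
    (h : y ^ 2 = x ^ 3 - 35 * δ ^ 2 * x - 98 * δ ^ 3) : NS v δ x y ↔ 1 ≤ v (x - 7 * δ) := by
  have h3' : v (3 : L) ≤ 1 := by exact_mod_cast vnat v 3
  have h2' : v (2 : L) ≤ 1 := by exact_mod_cast vnat v 2
  have h7' : v (7 : L) ≤ 1 := by exact_mod_cast vnat v 7
  have h21' : v (21 : L) ≤ 1 := by exact_mod_cast vnat v 21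
  have h7d : v (7 * δ) ≤ 1 := vmul h7' hd
  have l42 : v (42 * δ) < 1 := by
    have e : 42 * δ = 2 * (21 * δ) := by ring
    rw [e]
    rcases l21 with l | l
    · exact vmull h2' l
    · exact vmulr l (vmul h21' hd)
  have hE : y ^ 2 = (x - 7 * δ) ^ 3 + 21 * δ * (x - 7 * δ) ^ 2 + 112 * δ ^ 2 * (x - 7 * δ) := by
    rw [h]; ring
  set X := x - 7 * δ with hX
  have ex : x = X + 7 * δ := by rw [hX]; ring
  have e1 : 0 * y - (3 * x ^ 2 + 2 * 0 * x + -35 * δ ^ 2) =
      -(3 * X ^ 2 + (42 * δ) * X + 112 * δ ^ 2) := by rw [ex]; ring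
  have e2 : 2 * y + 0 * x + 0 = 2 * y := by ring
  unfold NS
  rw [e1, e2, Valuation.map_neg]
  constructor
  · intro hc
    by_contra h1
    push Not at h1
    have hx1 : v x ≤ 1 := by rw [ex]; exact vadd h1.le h7d
    rcases hc with hc | hc | hc
    · exact absurd hx1 (not_le.2 hc)
    · have l1 : v (3 * X ^ 2 + (42 * δ) * X + 112 * δ ^ 2) < 1 :=
        vaddl (vaddl (vmull h3' (vpowl h1 two_ne_zero)) (vmull l42.le h1)) l112
      rw [hc] at l1
      exact lt_irrefl _ l1
    · rcases h3 with h3 | ⟨h3, -⟩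
      · have l21'' : v (21 * δ) ≤ 1 := vmul h21' hd
        have l2 : v (y ^ 2) < 1 := by
          rw [hE]
          exact vaddl (vaddl (vpowl h1 three_ne_zero) (vmull l21'' (vpowl h1 two_ne_zero)))
            (vmull l112.le h1)
        have l3 : v y < 1 := by
          by_contra h5
          push Not at h5
          rw [map_pow] at l2
          exact absurd l2 (not_lt.2 (one_le_pow₀ h5))
        rw [map_mul, h3, one_mul] at hc
        rw [hc] at l3
        exact lt_irrefl _ l3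
      · have hy := y_int' hd h hx1
        have l3 : v (2 * y) < 1 := vmulr h3 hy
        rw [hc] at l3
        exact lt_irrefl _ l3
  · intro h1
    rcases h1.lt_or_eq with h5 | h5
    · left
      rw [ex, v.map_add_eq_of_lt_left (h7d.trans_lt h5)]
      exact h5
    · right
      rcases h3 with h3 | ⟨h3, h3''⟩
      · right
        have l21'' : v (21 * δ) < 1 := by
          rcases l21 with l | l
          · exact l
          · exact absurd h3 l.ne
        have h6 : v (X ^ 2 + 21 * δ * X + 112 * δ ^ 2) = 1 := by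
          have e : X ^ 2 + 21 * δ * X + 112 * δ ^ 2 = X ^ 2 + (21 * δ * X + 112 * δ ^ 2) := by ring
          rw [e, v.map_add_eq_of_lt_left]
          · rw [map_pow, ← h5, one_pow]
          · rw [map_pow, ← h5, one_pow]
            exact vaddl (vmulr l21'' h5.ge) l112
        have h7'' : v (y ^ 2) = 1 := by
          have e : y ^ 2 = X * (X ^ 2 + 21 * δ * X + 112 * δ ^ 2) := by rw [hE]; ring
          rw [e, map_mul, h6, ← h5, one_mul]
        have h8' : v y = 1 := by
          rw [map_pow] at h7''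
          exact (pow_eq_one_iff_of_nonneg zero_le two_ne_zero).1 h7''
        rw [map_mul, h3, h8', one_mul]
      · left
        have e : 3 * X ^ 2 + 42 * δ * X + 112 * δ ^ 2 = 3 * X ^ 2 + (42 * δ * X + 112 * δ ^ 2) := by ring
        have h9 : v (3 * X ^ 2) = 1 := by rw [map_mul, map_pow, h3'', ← h5, one_pow, one_mul]
        rw [e, v.map_add_eq_of_lt_left, h9]
        rw [h9]
        exact vaddl (vmulr l42 h5.ge) l112

variable {W : WeierstrassCurve L} (S : VE W δ) [DecidableEq L]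

include S in
/-- from a criterion to the index -/
theorem idx_of' (G : AddSubgroup W.toAffine.Point)
    (hG : ∀ (x y : L) (h : W.toAffine.Nonsingular x y),
      NS v δ x y ↔ (.some x y h : W.toAffine.Point) ∈ G) :
    (AddSubgroup.closure {P : W.toAffine.Point | ∀ x y h, P = Affine.Point.some x y h →
      1 < v x ∨ v (W.a₁ * y - (3 * x ^ 2 + 2 * W.a₂ * x + W.a₄)) = 1 ∨
      v (2 * y + W.a₁ * x + W.a₃) = 1}).index = G.index := by
  rw [S.h1, S.h2, S.h3, S.h4]
  have hset : {P : W.toAffine.Point | ∀ x y h, P = Affine.Point.some x y h →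
      1 < v x ∨ v (0 * y - (3 * x ^ 2 + 2 * 0 * x + -35 * δ ^ 2)) = 1 ∨
      v (2 * y + 0 * x + 0) = 1} = (G : Set W.toAffine.Point) := by
    apply Set.ext
    intro P
    rw [SetLike.mem_coe]
    constructor
    · intro hP
      rcases P with _ | ⟨x, y, h⟩
      · exact G.zero_mem
      · exact (hG x y h).1 (hP x y h rfl)
    · intro hP x y h e
      rw [e] at hP
      exact (hG x y h).2 hP
  rw [hset, AddSubgroup.closure_eq]

include S in
/-- good reduction -/
theorem idxE_one (h2 : v (2 : L) = 1) (h7 : v (7 : L) = 1) (hD : v δ = 1) :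
    (AddSubgroup.closure {P : W.toAffine.Point | ∀ x y h, P = Affine.Point.some x y h →
      1 < v x ∨ v (W.a₁ * y - (3 * x ^ 2 + 2 * W.a₂ * x + W.a₄)) = 1 ∨
      v (2 * y + W.a₁ * x + W.a₃) = 1}).index = 1 := by
  rw [idx_of' S ⊤ (fun x y h => ?_), AddSubgroup.index_top]
  exact ⟨fun _ => AddSubgroup.mem_top _, fun _ => good_red' h2 h7 hD (S.eqn h.1)⟩

end val

section val2

variable {L : Type} [Field L] [CharZero L] {δ : L} {W : WeierstrassCurve L} (S : VE W δ)
  [DecidableEq L]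

/-- even order -/
def Evo (v : Valuation L ℤᵐ⁰) (x : L) : Prop := ∃ k : ℤ, v x = exp (2 * k)

lemma mq_evo (v : Valuation L ℤᵐ⁰) : Mq (Evo v) where
  mul := by
    rintro x y ⟨k, hk⟩ ⟨l, hl⟩
    exact ⟨k + l, by rw [map_mul, hk, hl, ← exp_add]; congr 1; ring⟩
  sq := by
    intro x z hz
    obtain ⟨m, hm⟩ := exists_exp v hz
    constructor
    · rintro ⟨k, hk⟩
      rw [map_mul, map_pow, hm, exp_sq] at hk
      refine ⟨k - m, ?_⟩
      have h1 : v x = exp (2 * k) / exp (2 * m) := by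
        rw [← hk, mul_div_assoc, div_self (exp_ne_zero), mul_one]
      rw [h1, ← exp_sub]
      congr 1
      ring
    · rintro ⟨k, hk⟩
      exact ⟨k + m, by rw [map_mul, map_pow, hk, hm, exp_sq, ← exp_add]; congr 1; ring⟩

omit [CharZero L] in
lemma evo_dich (v : Valuation L ℤᵐ⁰) (x y : L) (hx : x ≠ 0) (hy : y ≠ 0) (h1 : ¬ Evo v x)
    (h2 : ¬ Evo v y) : Evo v (x * y) := by
  obtain ⟨m, hm⟩ : ∃ m : ℤ, v x = exp m := ⟨(v x).log, (exp_log ((v.ne_zero_iff).2 hx)).symm⟩
  obtain ⟨k, hk⟩ : ∃ m : ℤ, v y = exp m := ⟨(v y).log, (exp_log ((v.ne_zero_iff).2 hy)).symm⟩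
  have o1 : m % 2 = 1 := by
    by_contra h
    exact h1 ⟨m / 2, by rw [hm, exp_inj]; omega⟩
  have o2 : k % 2 = 1 := by
    by_contra h
    exact h2 ⟨k / 2, by rw [hk, exp_inj]; omega⟩
  exact ⟨(m + k) / 2, by rw [map_mul, hm, hk, ← exp_add, exp_inj]; omega⟩

omit [CharZero L] [DecidableEq L] in
lemma not_evo {v : Valuation L ℤᵐ⁰} {x : L} {k : ℤ} (h : v x = exp (2 * k + 1)) : ¬ Evo v x := by
  rintro ⟨l, hl⟩
  rw [h, exp_inj] at hl
  omega

variable {v : Valuation L ℤᵐ⁰}

/-- the parity criterion above `7` -/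
theorem parity' (h7 : v (7 : L) = exp (-1)) (hD : v δ = 1) {X Y : L}
    (h : Eeq' δ X Y) : 1 ≤ v X ↔ ∃ k : ℤ, v X = exp (2 * k) := by
  unfold Eeq' at h
  have h112 : v (112 * δ ^ 2) = exp (-1) := by
    rw [map_mul, map_pow, hD, one_pow, mul_one, v_112 h7]
  have h21 : v (21 * δ) ≤ exp (-1) := by
    rw [map_mul, hD, mul_one]
    exact v_21 h7
  constructor
  · intro h1
    rcases h1.eq_or_lt with h2 | h2
    · exact ⟨0, by rw [← h2]; simp⟩
    · have hX0 : X ≠ 0 := by
        rintro rfl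
        simp at h1
      obtain ⟨m, hm⟩ := exists_exp v hX0
      have hm0 : 0 < m := by
        rw [hm, ← exp_zero, exp_lt_exp] at h2; exact h2
      have e : X ^ 3 + 21 * δ * X ^ 2 + 112 * δ ^ 2 * X =
        X ^ 3 + (21 * δ * X ^ 2 + 112 * δ ^ 2 * X) := by ring
      have hlt : v (21 * δ * X ^ 2 + 112 * δ ^ 2 * X) < v (X ^ 3) := by
        rw [map_pow, hm, exp_cube]
        apply v.map_add_lt
        · rw [map_mul, map_pow, hm, exp_sq]
          calc v (21 * δ) * exp (2 * m) ≤ exp (-1) * exp (2 * m) := by gcongr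
            _ = exp (-1 + 2 * m) := (exp_add _ _).symm
            _ < exp (3 * m) := by rw [exp_lt_exp]; omega
        · rw [map_mul, hm, h112, ← exp_add, exp_lt_exp]; omega
      have h3 : v (Y ^ 2) = v (X ^ 3) := by
        rw [h, e]
        exact v.map_add_eq_of_lt_left hlt
      have hY0 : Y ≠ 0 := by
        rintro rfl
        rw [map_pow, map_pow, hm, map_zero, exp_cube] at h3
        exact exp_ne_zero (by rw [← h3]; simp)
      obtain ⟨l, hl⟩ := exists_exp v hY0
      rw [map_pow, map_pow, hm, hl, exp_cube, exp_sq, exp_inj] at h3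
      exact ⟨m / 2, by rw [hm, exp_inj]; omega⟩
  · rintro ⟨k, hk⟩
    by_contra h1
    push Not at h1
    rw [hk, ← exp_zero, exp_lt_exp] at h1
    have hX0 : X ≠ 0 := by
      rintro rfl
      rw [map_zero] at hk
      exact exp_ne_zero hk.symm
    have hlt : v (X ^ 2 + 21 * δ * X) < v (112 * δ ^ 2) := by
      rw [h112]
      apply v.map_add_lt
      · rw [map_pow, hk, exp_sq, exp_lt_exp]; omega
      · rw [map_mul, hk]
        calc v (21 * δ) * exp (2 * k) ≤ exp (-1) * exp (2 * k) := by gcongr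
          _ = exp (-1 + 2 * k) := (exp_add _ _).symm
          _ < exp (-1) := by rw [exp_lt_exp]; omega
    have h3 : v (X ^ 2 + 21 * δ * X + 112 * δ ^ 2) = exp (-1) := by
      rw [v.map_add_eq_of_lt_right hlt, h112]
    have h4 : v (Y ^ 2) = exp (2 * k + -1) := by
      have e : Y ^ 2 = X * (X ^ 2 + 21 * δ * X + 112 * δ ^ 2) := by rw [h]; ring
      rw [e, map_mul, h3, hk, ← exp_add]
    have hY0 : Y ≠ 0 := by
      rintro rfl
      rw [map_pow, map_zero] at h4
      exact exp_ne_zero (by rw [← h4]; simp)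
    obtain ⟨l, hl⟩ := exists_exp v hY0
    rw [map_pow, hl, exp_sq, exp_inj] at h4
    omega

include S in
/-- index two at a place above `7` -/
theorem idxE_seven (h7 : v (7 : L) = exp (-1)) (hD : v δ = 1) :
    (AddSubgroup.closure {P : W.toAffine.Point | ∀ x y h, P = Affine.Point.some x y h →
      1 < v x ∨ v (W.a₁ * y - (3 * x ^ 2 + 2 * W.a₂ * x + W.a₄)) = 1 ∨
      v (2 * y + W.a₁ * x + W.a₃) = 1}).index = 2 := by
  have h2 := v_two_of7 (v := v) h7
  have l112 : v (112 * δ ^ 2) = exp (-1) := by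
    rw [map_mul, map_pow, hD, one_pow, mul_one, v_112 h7]
  have l21 : v (21 * δ) < 1 := by
    rw [map_mul, hD, mul_one]
    exact lt_of_le_of_lt (v_21 h7) (by rw [← exp_zero, exp_lt_exp]; norm_num)
  have hodd : ¬ Evo v (112 * δ ^ 2) := not_evo (k := -1) (by rw [l112]; rfl)
  rw [idx_of' S (GP S.w0 (mq_evo v)) (fun x y h => ?_)]
  · refine GP_index S.w0 (mq_evo v) (evo_dich v) (Q := Te S.w0) ?_
    unfold Te
    rw [mem_GP, dv_T]
    exact hodd
  · rw [sing_red' hD.le (Or.inl h2) (Or.inl l21) (by rw [l112, ← exp_zero, exp_lt_exp]; norm_num)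
      (S.eqn h.1), parity' h7 hD (S.eeq h.1), mem_GP]
    by_cases hX : x = 7 * δ
    · rw [hX, dv_T, sub_self, map_zero]
      refine ⟨fun ⟨k, hk⟩ => absurd hk.symm exp_ne_zero, fun h => absurd h hodd⟩
    · rw [dv_ne hX]
      exact Iff.rfl

section bad

variable (h2 : v (2 : L) = 1) (h7 : v (7 : L) = 1) (hD : v δ = exp (-1))

include h2 h7 hD in
lemma lbad' : v (21 * δ) < 1 ∧ v (112 * δ ^ 2) = exp (-2) := by
  constructor
  · refine vmull (by exact_mod_cast vnat v 21) ?_
    rw [hD, ← exp_zero, exp_lt_exp]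
    norm_num
  · have e : (112 : L) = 2 ^ 4 * 7 := by norm_num
    rw [e, map_mul, map_mul, map_pow, map_pow, h2, h7, hD, exp_sq]
    simp

lemma dle (hD : v δ = exp (-1)) : v δ ≤ 1 := by
  rw [hD, ← exp_zero, exp_le_exp]
  norm_num

include h2 h7 hD in
/-- large `X` are squares -/
lemma big_sq' (hH : ∀ x : L, v (x - 1) < 1 → IsSquare x) {X Y : L} (h : Eeq' δ X Y) (h1 : 1 ≤ v X) :
    IsSquare X := by
  obtain ⟨l21, l112⟩ := lbad' h2 h7 hD
  have l112' : v (112 * δ ^ 2) < 1 := by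
    rw [l112, ← exp_zero, exp_lt_exp]; norm_num
  unfold Eeq' at h
  have hX0 : X ≠ 0 := by
    rintro rfl
    rw [map_zero] at h1
    exact absurd h1 (by simp)
  have hXi : v X⁻¹ ≤ 1 := by
    rw [map_inv₀]
    exact inv_le_one_of_one_le₀ h1
  set t : L := 1 + 21 * δ * X⁻¹ + 112 * δ ^ 2 * (X⁻¹) ^ 2 with ht
  obtain ⟨z, hz⟩ := hH t (by
    have e : t - 1 = 21 * δ * X⁻¹ + 112 * δ ^ 2 * (X⁻¹) ^ 2 := by rw [ht]; ring
    rw [e]
    exact vaddl (vmulr l21 hXi) (vmulr l112' (vpow hXi 2)))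
  have ht0 : t ≠ 0 := by
    intro h0
    have h5 : v t = 1 := by
      have e : t = 1 + (21 * δ * X⁻¹ + 112 * δ ^ 2 * (X⁻¹) ^ 2) := by rw [ht]; ring
      rw [e, v.map_add_eq_of_lt_left, map_one]
      rw [map_one]
      exact vaddl (vmulr l21 hXi) (vmulr l112' (vpow hXi 2))
    rw [h0, map_zero] at h5
    exact zero_ne_one h5
  have hz0 : z ≠ 0 := by
    rintro rfl
    rw [mul_zero] at hz
    exact ht0 hz
  refine ⟨Y / (X * z), ?_⟩
  have e1 : Y ^ 2 = X ^ 3 * t := by
    rw [h, ht]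
    field_simp
  rw [hz] at e1
  field_simp
  linear_combination -e1

include h2 h7 hD in
/-- small `X`, when `-7` is not a square -/
lemma small_val' (hH : ∀ x : L, v (x - 1) < 1 → IsSquare x) (hns : ¬ IsSquare (-7 : L)) {X Y : L}
    (hX0 : X ≠ 0) (h : Eeq' δ X Y) (h1 : v X < 1) : 1 ≤ v (112 * δ ^ 2 / X) := by
  obtain ⟨l21, l112⟩ := lbad' h2 h7 hD
  unfold Eeq' at h
  have hδ0 : δ ≠ 0 := by
    rintro rfl
    rw [map_zero] at hD
    exact exp_ne_zero hD.symm
  obtain ⟨m, hm⟩ := exists_exp v hX0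
  rw [hm, ← exp_zero, exp_lt_exp] at h1
  rw [map_div₀, l112, hm, ← exp_sub, ← exp_zero, exp_le_exp]
  by_contra hcon
  have hm1 : m = -1 := by omega
  obtain ⟨U, rfl⟩ : ∃ U, X = δ * U := ⟨X / δ, by field_simp⟩
  have hU : v U = 1 := by
    rw [map_mul, hD, hm1] at hm
    have h3 : (exp (-1) : ℤᵐ⁰) ≠ 0 := exp_ne_zero
    calc v U = (exp (-1) * v U) / exp (-1) := by rw [mul_comm, mul_div_assoc, div_self h3, mul_one]
      _ = 1 := by rw [hm, div_self h3]
  have hY : Y ^ 2 = δ ^ 3 * (U * (U ^ 2 + 21 * U + 112)) := by rw [h]; ring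
  have hY0 : U ^ 2 + 21 * U + 112 ≠ 0 := by
    intro h0
    apply hns
    exact ⟨2 * U + 21, by linear_combination -4 * h0⟩
  have hU0 : U ≠ 0 := right_ne_zero_of_mul hX0
  have hcase : v (U ^ 2 + 21 * U + 112) = 1 := by
    by_contra hne
    have h21 : v (21 : L) ≤ 1 := by exact_mod_cast vnat v 21
    have h112 : v (112 : L) ≤ 1 := by exact_mod_cast vnat v 112
    have hlt : v (U ^ 2 + 21 * U + 112) < 1 :=
      lt_of_le_of_ne (vadd (vadd (vpow hU.le 2) (vmul h21 hU.le)) h112) hne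
    apply hns
    -- `-7 ≡ (2 U + 21)²`
    have h3 : v ((2 * U + 21) ^ 2 - (-7)) < 1 := by
      have e : (2 * U + 21) ^ 2 - (-7) = 4 * (U ^ 2 + 21 * U + 112) := by ring
      rw [e]
      exact vmull (by exact_mod_cast vnat v 4) hlt
    have h4 : IsSquare ((2 * U + 21) ^ 2 / (-7)) := by
      apply hH
      have e : (2 * U + 21) ^ 2 / (-7) - 1 = -(((2 * U + 21) ^ 2 - (-7)) / 7) := by ring
      rw [e, Valuation.map_neg, map_div₀, h7, div_one]
      exact h3
    obtain ⟨z, hz⟩ := h4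
    have h5 : v ((2 * U + 21) ^ 2) = 1 := by
      have e : (2 * U + 21) ^ 2 = -7 + ((2 * U + 21) ^ 2 - (-7)) := by ring
      rw [e, v.map_add_eq_of_lt_left, Valuation.map_neg, h7]
      rw [Valuation.map_neg, h7]
      exact h3
    have h6 : 2 * U + 21 ≠ 0 := by
      intro h0
      rw [h0, zero_pow two_ne_zero, map_zero] at h5
      exact zero_ne_one h5
    have hz0 : z ≠ 0 := by
      rintro rfl
      rw [mul_zero, div_eq_zero_iff] at hz
      rcases hz with h8 | h8
      · exact h6 (pow_eq_zero_iff two_ne_zero |>.1 h8)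
      · norm_num at h8
    refine ⟨(2 * U + 21) / z, ?_⟩
    field_simp at hz ⊢
    linear_combination hz
  have h4 : v (Y ^ 2) = exp (2 * (-2) + 1) := by
    rw [hY, map_mul, map_mul, hcase, hU, map_pow, hD, exp_cube]
    simp
  exact ev_odd_val (z := Y) (by
    rintro rfl
    rw [zero_pow two_ne_zero, map_zero] at h4
    exact exp_ne_zero h4.symm) (map_pow v Y 2) h4

end bad

/-- the form `u² + 7 w²` is anisotropic -/
lemma aniso' (h7 : v (7 : L) = 1) (hH : ∀ x : L, v (x - 1) < 1 → IsSquare x)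
    (hns : ¬ IsSquare (-7 : L)) (u w : L) (h0 : u ^ 2 + 7 * w ^ 2 ≠ 0) :
    ∃ m : ℤ, v (u ^ 2 + 7 * w ^ 2) = exp (2 * m) := by
  by_cases hu : u = 0
  · by_cases hw : w = 0
    · simp [hu, hw] at h0
    · obtain ⟨m, hm⟩ := exists_exp v hw
      refine ⟨m, ?_⟩
      rw [hu, zero_pow two_ne_zero, zero_add, map_mul, h7, one_mul, map_pow, hm, exp_sq]
  · by_cases hw : w = 0
    · obtain ⟨m, hm⟩ := exists_exp v hu
      exact ⟨m, by rw [hw, zero_pow two_ne_zero, mul_zero, add_zero, map_pow, hm, exp_sq]⟩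
    · obtain ⟨m, hm⟩ := exists_exp v hu
      obtain ⟨k, hk⟩ := exists_exp v hw
      have e1 : v (u ^ 2) = exp (2 * m) := by rw [map_pow, hm, exp_sq]
      have e2 : v (7 * w ^ 2) = exp (2 * k) := by rw [map_mul, h7, one_mul, map_pow, hk, exp_sq]
      rcases lt_trichotomy m k with hlt | heq | hgt
      · refine ⟨k, ?_⟩
        rw [v.map_add_eq_of_lt_right, e2]
        rw [e1, e2, exp_lt_exp]
        omega
      · refine ⟨k, ?_⟩
        by_contra hne
        have hlt : v (u ^ 2 + 7 * w ^ 2) < exp (2 * k) := by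
          refine lt_of_le_of_ne ((v.map_add _ _).trans ?_) hne
          rw [e1, e2, heq, max_self]
        apply hns
        have h4 : IsSquare ((u / w) ^ 2 / (-7)) := by
          apply hH
          have e : (u / w) ^ 2 / (-7) - 1 = -((u ^ 2 + 7 * w ^ 2) / (7 * w ^ 2)) := by
            field_simp
            ring
          rw [e, Valuation.map_neg, map_div₀, e2]
          calc v (u ^ 2 + 7 * w ^ 2) / exp (2 * k) < exp (2 * k) / exp (2 * k) := by
                rw [div_eq_mul_inv, div_eq_mul_inv]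
                exact mul_lt_mul_of_pos_right hlt (by simp)
            _ = 1 := div_self exp_ne_zero
        obtain ⟨z, hz⟩ := h4
        have hz0 : z ≠ 0 := by
          rintro rfl
          rw [mul_zero, div_eq_zero_iff] at hz
          rcases hz with h8 | h8
          · rw [pow_eq_zero_iff two_ne_zero, div_eq_zero_iff] at h8
            tauto
          · norm_num at h8
        refine ⟨u / w / z, ?_⟩
        field_simp at hz ⊢
        linear_combination hz
      · refine ⟨m, ?_⟩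
        rw [v.map_add_eq_of_lt_left, e1]
        rw [e1, e2, exp_lt_exp]
        omega

/-- the norm form -/
def nfo (δ X : L) : L := X ^ 2 + 21 * δ * X + 112 * δ ^ 2

omit [DecidableEq L] in
lemma nfo_ne (hδ0 : δ ≠ 0) (hns : ¬ IsSquare (-7 : L)) (X : L) : nfo δ X ≠ 0 := by
  intro h0
  unfold nfo at h0
  apply hns
  refine ⟨(2 * X + 21 * δ) / δ, ?_⟩
  field_simp
  linear_combination -4 * h0

/-- the points whose norm has value divisible by four -/
def G4' (h2 : v (2 : L) = 1) (h7 : v (7 : L) = 1) (hH : ∀ x : L, v (x - 1) < 1 → IsSquare x)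
    (hns : ¬ IsSquare (-7 : L)) : AddSubgroup W.toAffine.Point where
  carrier := {P | ∀ X Y h, P = .some X Y h → ∃ k : ℤ, v (nfo δ (X - 7 * δ)) = exp (4 * k)}
  zero_mem' := by
    intro X Y h e
    exact absurd e.symm (Affine.Point.some_ne_zero _)
  neg_mem' := by
    rintro (_ | ⟨X, Y, h⟩) hP
    · intro X Y h e
      exact absurd e.symm (Affine.Point.some_ne_zero _)
    · intro X' Y' h' e
      obtain ⟨h2, e2⟩ := S.w0.neg_some h
      rw [e2, Affine.Point.some.injEq] at e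
      rw [← e.1]
      exact hP X Y h rfl
  add_mem' := by
    rintro (_ | ⟨X₁, Y₁, h₁⟩) (_ | ⟨X₂, Y₂, h₂⟩) hP1 hQ
    · exact hP1
    · exact hQ
    · exact hP1
    · intro X₃ Y₃ h₃ e
      obtain ⟨l, ν, hl⟩ := S.w0.line3 e
      change nfo δ (X₁ - 7 * δ) * nfo δ (X₂ - 7 * δ) * nfo δ (X₃ - 7 * δ) = _ at hl
      obtain ⟨k1, hk1⟩ := hP1 X₁ Y₁ h₁ rfl
      obtain ⟨k2, hk2⟩ := hQ X₂ Y₂ h₂ rfl
      have h4N : 4 * (ν ^ 2 - 21 * δ * l * ν + 112 * δ ^ 2 * l ^ 2) =
          (2 * ν - 21 * δ * l) ^ 2 + 7 * (δ * l) ^ 2 := by ring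
      have hN0 : ν ^ 2 - 21 * δ * l * ν + 112 * δ ^ 2 * l ^ 2 ≠ 0 := by
        intro h0
        rw [h0, zero_pow two_ne_zero] at hl
        exact mul_ne_zero (mul_ne_zero (nfo_ne S.hδ hns _) (nfo_ne S.hδ hns _))
          (nfo_ne S.hδ hns _) hl
      obtain ⟨m, hm⟩ := aniso' h7 hH hns (2 * ν - 21 * δ * l) (δ * l)
        (by rw [← h4N]; exact mul_ne_zero (by norm_num) hN0)
      have h4 : v (4 : L) = 1 := by
        have e4 : (4 : L) = 2 ^ 2 := by norm_num
        rw [e4, map_pow, h2, one_pow]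
      rw [← h4N, map_mul, h4, one_mul] at hm
      obtain ⟨k3, hk3⟩ := exists_exp v (nfo_ne S.hδ hns (X₃ - 7 * δ))
      have h5 := congrArg v hl
      rw [map_mul, map_mul, map_pow, hm, hk1, hk2, hk3, exp_sq, ← exp_add, ← exp_add, exp_inj] at h5
      exact ⟨m - k1 - k2, by rw [hk3, exp_inj]; omega⟩

section bad

variable (h2 : v (2 : L) = 1) (h7 : v (7 : L) = 1) (hD : v δ = exp (-1))

lemma mem_G4' (hH : ∀ x : L, v (x - 1) < 1 → IsSquare x) (hns : ¬ IsSquare (-7 : L)) {X Y : L}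
    (h : W.toAffine.Nonsingular X Y) :
    (.some X Y h : W.toAffine.Point) ∈ G4' S h2 h7 hH hns ↔
      ∃ k : ℤ, v (nfo δ (X - 7 * δ)) = exp (4 * k) := by
  constructor
  · intro h1
    exact h1 X Y h rfl
  · intro h1 X' Y' h' e'
    rw [Affine.Point.some.injEq] at e'
    rw [← e'.1]
    exact h1

include h2 h7 hD in
lemma crit4' (hH : ∀ x : L, v (x - 1) < 1 → IsSquare x) (hns : ¬ IsSquare (-7 : L)) {X Y : L}
    (hE : Eeq' δ X Y) : 1 ≤ v X ↔ ∃ k : ℤ, v (nfo δ X) = exp (4 * k) := by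
  obtain ⟨l21, l112⟩ := lbad' h2 h7 hD
  have l21' : v (21 * δ) ≤ exp (-1) := by
    rw [map_mul, hD]
    calc v (21 : L) * exp (-1) ≤ 1 * exp (-1) := by
          gcongr
          exact_mod_cast vnat v 21
      _ = exp (-1) := one_mul _
  have l112' : v (112 * δ ^ 2) < 1 := by
    rw [l112, ← exp_zero, exp_lt_exp]; norm_num
  constructor
  · intro h1
    have hX0 : X ≠ 0 := by
      rintro rfl
      rw [map_zero] at h1
      exact absurd h1 (by simp)
    obtain ⟨z, hz⟩ := big_sq' h2 h7 hD hH hE h1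
    have hz0 : z ≠ 0 := by
      rintro rfl
      rw [mul_zero] at hz
      exact hX0 hz
    obtain ⟨k, hk⟩ := exists_exp v hz0
    have hvX : v X = exp (2 * k) := by rw [hz, ← pow_two, map_pow, hk, exp_sq]
    refine ⟨k, ?_⟩
    have hX2 : v (X ^ 2) = exp (4 * k) := by
      rw [map_pow, hvX, exp_sq]; congr 1; ring
    have hk0 : 0 ≤ k := by
      rw [hvX, ← exp_zero, exp_le_exp] at h1; omega
    have e : nfo δ X = X ^ 2 + (21 * δ * X + 112 * δ ^ 2) := by
      unfold nfo; ring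
    rw [e, v.map_add_eq_of_lt_left, hX2]
    rw [hX2]
    apply v.map_add_lt
    · rw [map_mul, hvX]
      calc v (21 * δ) * exp (2 * k) ≤ exp (-1) * exp (2 * k) := by gcongr
        _ = exp (-1 + 2 * k) := (exp_add _ _).symm
        _ < exp (4 * k) := by rw [exp_lt_exp]; omega
    · rw [l112, exp_lt_exp]; omega
  · rintro ⟨k, hk⟩
    by_contra hlt
    push Not at hlt
    have h5 : v (nfo δ X) = exp (-2) := by
      by_cases hX0 : X = 0
      · rw [hX0]
        unfold nfo
        rw [← l112]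
        congr 1
        ring
      · have h3 := small_val' h2 h7 hD hH hns hX0 hE hlt
        obtain ⟨m, hm⟩ := exists_exp v hX0
        rw [map_div₀, l112, hm, ← exp_sub, ← exp_zero, exp_le_exp] at h3
        unfold nfo
        rw [v.map_add_eq_of_lt_right, l112]
        rw [l112]
        apply v.map_add_lt
        · rw [map_pow, hm, exp_sq, exp_lt_exp]; omega
        · rw [map_mul, hm]
          calc v (21 * δ) * exp m ≤ exp (-1) * exp m := by gcongr
            _ = exp (-1 + m) := (exp_add _ _).symm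
            _ < exp (-2) := by rw [exp_lt_exp]; omega
    rw [h5, exp_inj] at hk
    omega

include S h2 h7 hD in
/-- index two at a place above `D` where `-7` is not a square -/
theorem idxE_two (hH : ∀ x : L, v (x - 1) < 1 → IsSquare x) (hns : ¬ IsSquare (-7 : L)) :
    (AddSubgroup.closure {P : W.toAffine.Point | ∀ x y h, P = Affine.Point.some x y h →
      1 < v x ∨ v (W.a₁ * y - (3 * x ^ 2 + 2 * W.a₂ * x + W.a₄)) = 1 ∨
      v (2 * y + W.a₁ * x + W.a₃) = 1}).index = 2 := by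
  obtain ⟨l21, l112⟩ := lbad' h2 h7 hD
  rw [idx_of' S (G4' S h2 h7 hH hns) (fun x y h => ?_)]
  · rw [AddSubgroup.index_eq_two_iff]
    refine ⟨Te S.w0, fun P => ?_⟩
    have hT : Te S.w0 ∉ G4' S h2 h7 hH hns := by
      unfold Te
      rw [mem_G4']
      rintro ⟨k, hk⟩
      unfold nfo at hk
      rw [sub_self, zero_pow two_ne_zero, mul_zero, zero_add, zero_add, l112, exp_inj] at hk
      omega
    by_cases hP : P ∈ G4' S h2 h7 hH hns
    · refine Or.inr ⟨hP, fun h3 => hT ?_⟩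
      have := (G4' S h2 h7 hH hns).sub_mem h3 hP
      rwa [add_sub_cancel_left] at this
    · refine Or.inl ⟨?_, hP⟩
      rcases P with _ | ⟨X, Y, h⟩
      · exact absurd (G4' S h2 h7 hH hns).zero_mem hP
      by_cases hX : X = 7 * δ
      · rw [S.w0.eq_T hX h, S.w0.T_add_T]
        exact (G4' S h2 h7 hH hns).zero_mem
      · obtain ⟨Y', h', e'⟩ := S.w0.add_T hX h
        have hX' : X - 7 * δ ≠ 0 := sub_ne_zero.2 hX
        rw [e', mem_G4']
        rw [mem_G4', ← crit4' h2 h7 hD hH hns (S.eeq h.1), not_le] at hP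
        rw [← crit4' h2 h7 hD hH hns (S.eeq h'.1), add_sub_cancel_left]
        exact small_val' h2 h7 hD hH hns hX' (S.eeq h.1) hP
  · rw [sing_red' (dle hD) (Or.inl h2) (Or.inl l21) (by rw [l112, ← exp_zero, exp_lt_exp]; norm_num)
      (S.eqn h.1), mem_G4']
    exact crit4' h2 h7 hD hH hns (S.eeq h.1)

omit [DecidableEq L] [CharZero L] in
/-- the values of the roots -/
lemma root_val {a : L} (ha : a ^ 2 = a - 2) (h2 : v (2 : L) = 1) (h7 : v (7 : L) = 1) :
    v (ra δ a) = v δ ∧ v (rb δ a) = v δ := by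
  have hn : ∀ n : ℕ, v (n : L) ≤ 1 := vnat v
  have h10 : v (10 : L) ≤ 1 := by exact_mod_cast hn 10
  have h11 : v (11 : L) ≤ 1 := by exact_mod_cast hn 11
  have ia : v a ≤ 1 := by
    by_contra hc
    push Not at hc
    have h0 : 0 < v a := zero_lt_one.trans hc
    have h3 : v (a ^ 2) ≤ v a := by
      rw [ha]
      exact (v.map_sub _ _).trans (max_le le_rfl (h2.le.trans hc.le))
    rw [map_pow, pow_two] at h3
    have h4 : v a * 1 < v a * v a := by gcongr
    rw [mul_one] at h4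
    exact absurd h3 (not_le.2 h4)
  have i1 : v (a - 11) ≤ 1 := vsub ia h11
  have i2 : v (a + 10) ≤ 1 := vadd ia h10
  have h5 : v (a - 11) * v (a + 10) = 1 := by
    rw [← map_mul]
    have e : (a - 11) * (a + 10) = -(2 ^ 4 * 7) := by linear_combination ha
    rw [e, Valuation.map_neg, map_mul, map_pow, h2, h7, one_pow, one_mul]
  have u1 : v (a - 11) = 1 := by
    refine le_antisymm i1 ?_
    by_contra hc
    push Not at hc
    have : v (a - 11) * v (a + 10) < 1 := mul_lt_one_of_lt_of_le hc i2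
    rw [h5] at this
    exact lt_irrefl _ this
  have u2 : v (a + 10) = 1 := by rwa [u1, one_mul] at h5
  unfold ra rb
  rw [Valuation.map_neg, map_mul, map_mul, u1, u2, mul_one]
  exact ⟨rfl, rfl⟩

include S h2 h7 hD in
/-- index four at a place above `D` where `-7` is a square -/
theorem idxE_four {a : L} (ha : a ^ 2 = a - 2) :
    (AddSubgroup.closure {P : W.toAffine.Point | ∀ x y h, P = Affine.Point.some x y h →
      1 < v x ∨ v (W.a₁ * y - (3 * x ^ 2 + 2 * W.a₂ * x + W.a₄)) = 1 ∨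
      v (2 * y + W.a₁ * x + W.a₃) = 1}).index = 4 := by
  obtain ⟨l21, l112⟩ := lbad' h2 h7 hD
  obtain ⟨vA, vB⟩ := root_val (δ := δ) (v := v) ha h2 h7
  rw [hD] at vA vB
  have hA0 : ra δ a ≠ 0 := ra_ne ha S.hδ
  have hoA : ¬ Evo v (ra δ a) := not_evo (k := -1) (by rw [vA]; rfl)
  have hoA' : ¬ Evo v (-ra δ a) := not_evo (k := -1) (by rw [Valuation.map_neg, vA]; rfl)
  have hne : 7 * δ ≠ 7 * δ + ra δ a := by
    intro h
    exact hA0 (by linear_combination -h)
  -- the criterion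
  have hcrit : ∀ {x y : L}, W.toAffine.Nonsingular x y →
      (1 ≤ v (x - 7 * δ) ↔ (Evo v (dv (7 * δ + ra δ a) (ra δ a * (ra δ a - rb δ a)) x) ∧
        Evo v (dv (7 * δ) (112 * δ ^ 2) x))) := by
    intro x y h
    have hE := S.eeq h.1
    by_cases hX : x = 7 * δ
    · rw [hX, dv_ne hne, sub_self, map_zero]
      have e : 7 * δ - (7 * δ + ra δ a) = -ra δ a := by ring
      rw [e]
      exact ⟨fun h => absurd h (by simp), fun h => absurd h.1 hoA'⟩
    by_cases hXA : x = 7 * δ + ra δ a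
    · rw [dv_ne hX, hXA, add_sub_cancel_left, vA]
      refine ⟨fun h => ?_, fun h => absurd h.2 hoA⟩
      rw [← exp_zero, exp_le_exp] at h
      omega
    rw [dv_ne hX, dv_ne hXA]
    have hX' : x - 7 * δ ≠ 0 := sub_ne_zero.2 hX
    have e0 : x - (7 * δ + ra δ a) = (x - 7 * δ) - ra δ a := by ring
    rw [e0]
    have hE' := hE.fac ha
    set X := x - 7 * δ with hXd
    constructor
    · intro h1
      have hlt : (exp (-1) : ℤᵐ⁰) < v X := by
        refine lt_of_lt_of_le ?_ h1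
        rw [← exp_zero, exp_lt_exp]
        norm_num
      have e1 : v (X - ra δ a) = v X :=
        Valuation.map_sub_eq_of_lt_left v (by rw [vA]; exact hlt)
      have e2 : v (X - rb δ a) = v X :=
        Valuation.map_sub_eq_of_lt_left v (by rw [vB]; exact hlt)
      obtain ⟨m, hm⟩ := exists_exp v hX'
      have e3 : v (y ^ 2) = exp (3 * m) := by
        rw [hE', map_mul, map_mul, e1, e2, hm, ← exp_add, ← exp_add]
        congr 1
        ring
      have hY0 : y ≠ 0 := by
        rintro rfl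
        rw [zero_pow two_ne_zero, map_zero] at e3
        exact exp_ne_zero e3.symm
      obtain ⟨l, hl⟩ := exists_exp v hY0
      rw [map_pow, hl, exp_sq, exp_inj] at e3
      have : Evo v X := ⟨m / 2, by rw [hm, exp_inj]; omega⟩
      refine ⟨?_, this⟩
      obtain ⟨k, hk⟩ := this
      exact ⟨k, by rw [e1, hk]⟩
    · rintro ⟨⟨k, hk⟩, ⟨l, hl⟩⟩
      by_contra hlt
      push Not at hlt
      rw [hl, ← exp_zero, exp_lt_exp] at hlt
      have e2 : v (X - ra δ a) = exp (-1) := by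
        rw [Valuation.map_sub_eq_of_lt_right v, vA]
        rw [vA, hl, exp_lt_exp]
        omega
      rw [e2, exp_inj] at hk
      omega
  set H1 := GP S.w0 (mq_evo v) with hH1
  set H2 := GP (S.w1 ha) (mq_evo v) with hH2
  have hidx1 : H1.index = 2 := by
    refine GP_index S.w0 (mq_evo v) (evo_dich v) (Q := Te (S.w1 ha)) ?_
    unfold Te
    rw [mem_GP, dv_ne hne.symm, add_sub_cancel_left]
    exact hoA
  have hidx2 : H2.relIndex H1 = 2 := by
    show (H2.addSubgroupOf H1).index = 2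
    rw [AddSubgroup.index_eq_two_iff]
    have hT1 : Te S.w0 ∈ H1 := by
      unfold Te
      rw [hH1, mem_GP, dv_T]
      exact ⟨-1, by rw [l112]; rfl⟩
    have hT2 : Te S.w0 ∉ H2 := by
      unfold Te
      rw [hH2, mem_GP, dv_ne hne]
      have e : 7 * δ - (7 * δ + ra δ a) = -ra δ a := by ring
      rw [e]
      exact hoA'
    refine ⟨⟨Te S.w0, hT1⟩, fun P => ?_⟩
    rw [AddSubgroup.mem_addSubgroupOf, AddSubgroup.mem_addSubgroupOf]
    show Xor ((P : W.toAffine.Point) + Te S.w0 ∈ H2) ((P : W.toAffine.Point) ∈ H2)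
    by_cases hP : (P : W.toAffine.Point) ∈ H2
    · refine Or.inr ⟨hP, fun h3 => hT2 ?_⟩
      have := H2.sub_mem h3 hP
      rwa [add_sub_cancel_left] at this
    · refine Or.inl ⟨?_, hP⟩
      have hGI : H2.index = 2 := GP_index (S.w1 ha) (mq_evo v) (evo_dich v) hT2
      exact (AddSubgroup.add_mem_iff_of_index_two hGI).2 ⟨fun h => absurd h hP, fun h => absurd h hT2⟩
  have hidx : (H2 ⊓ H1).index = 4 := by
    have h3 := AddSubgroup.relIndex_mul_index (H := H2 ⊓ H1) (K := H1) inf_le_right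
    rw [AddSubgroup.inf_relIndex_right, hidx2, hidx1] at h3
    omega
  rw [idx_of' S (H2 ⊓ H1) (fun x y h => ?_), hidx]
  rw [sing_red' (dle hD) (Or.inl h2) (Or.inl l21) (by rw [l112, ← exp_zero, exp_lt_exp]; norm_num)
    (S.eqn h.1), AddSubgroup.mem_inf, hH1, hH2, mem_GP, mem_GP]
  exact hcrit h

end bad

end val2

end Pool.Agent.L0h23.EV
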