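import Pool.Agent.L0h23.EV.TamA

/-!
# The index of the points with nonsingular reduction at a place above two
-/

set_option autoImplicit false
set_option linter.unusedSectionVars false

namespace Pool.Agent.L0h23.EV

open Pool.Agent.Y698 WeierstrassCurve WithZero

section two

variable {L : Type} [Field L] {v : Valuation L ℤᵐ⁰}

/-- the hypotheses on the place and on `δ`, `a` -/
structure At2 (v : Valuation L ℤᵐ⁰) (δ a : L) : Prop where
  h2 : v (2 : L) = exp (-1)
  hH : ∀ x : L, v (x - 1) ≤ exp (-3) → IsSquare x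
  hres : ∀ x : L, v x ≤ 1 → v (x ^ 2 - x) ≤ exp (-1)
  ha : a ^ 2 = a - 2
  va : v a < 1
  hD : (v δ = 1 ∧ v (δ - 3) ≤ exp (-2)) ∨ v δ = exp (-1)

variable {δ a : L} (A : At2 v δ a)

lemma v_oddn (h2 : v (2 : L) = exp (-1)) {n : ℕ} (hn : n % 2 = 1) : v (n : L) = 1 := by
  obtain ⟨m, rfl⟩ : ∃ m, n = 1 + 2 * m := ⟨n / 2, by omega⟩
  have l2 : v (2 : L) < 1 := by rw [h2, ← exp_zero, exp_lt_exp]; norm_num
  have l : v (2 * (m : L)) < 1 := vmulr l2 (vnat v m)
  push_cast
  rw [v.map_add_eq_of_lt_left, map_one]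
  rw [map_one]
  exact l

lemma ev_of_sq {Y : L} {n : ℤ} (h : v (Y ^ 2) = exp n) : n % 2 = 0 := by
  have hY0 : Y ≠ 0 := by
    rintro rfl
    rw [zero_pow two_ne_zero, map_zero] at h
    exact exp_ne_zero h.symm
  obtain ⟨l, hl⟩ : ∃ m : ℤ, v Y = exp m := ⟨_, (exp_log ((v.ne_zero_iff).2 hY0)).symm⟩
  rw [map_pow, hl, exp_sq, exp_inj] at h
  omega

/-- the squares of the units are congruent to one modulo four -/
lemma sq_mod4 (h2 : v (2 : L) = exp (-1)) (hres : ∀ x : L, v x ≤ 1 → v (x ^ 2 - x) ≤ exp (-1))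
    {u : L} (hu : v u = 1) : v (u * u - 1) ≤ exp (-2) := by
  have h1 : v (u - 1) ≤ exp (-1) := by
    have h := hres u hu.le
    have e : u ^ 2 - u = u * (u - 1) := by ring
    rw [e, map_mul, hu, one_mul] at h
    exact h
  have h3 : v (u + 1) ≤ exp (-1) := by
    have e : u + 1 = (u - 1) + 2 := by ring
    rw [e]
    exact (v.map_add _ _).trans (max_le h1 h2.le)
  have e : u * u - 1 = (u - 1) * (u + 1) := by ring
  rw [e, map_mul]
  calc v (u - 1) * v (u + 1) ≤ exp (-1) * exp (-1) := mul_le_mul' h1 h3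
    _ = exp (-2) := by rw [← exp_add]; rfl

include A

lemma At2.v32 : v (32 : L) = exp (-5) := by
  have e : (32 : L) = 2 ^ 5 := by norm_num
  rw [e, map_pow, A.h2, ← exp_nsmul]
  simp

lemma At2.v16 : v (16 : L) = exp (-4) := by
  have e : (16 : L) = 2 ^ 4 := by norm_num
  rw [e, map_pow, A.h2, ← exp_nsmul]
  simp

lemma At2.l2 : v (2 : L) < 1 := by rw [A.h2, ← exp_zero, exp_lt_exp]; norm_num

lemma At2.odd {n : ℕ} (hn : n % 2 = 1) : v (n : L) = 1 := v_oddn A.h2 hn

lemma At2.va6 : v (a - 6) = exp (-5) := by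
  have h5 : v (5 : L) = 1 := by exact_mod_cast A.odd (n := 5) (by norm_num)
  have h : v (a + 5) = 1 := by
    rw [v.map_add_eq_of_lt_right, h5]
    rw [h5]
    exact A.va
  have e : (a - 6) * (a + 5) = -32 := by linear_combination A.ha
  have := congrArg v e
  rw [map_mul, h, mul_one, Valuation.map_neg, A.v32] at this
  exact this

lemma At2.va11 : v (a - 11) = 1 := by
  have h11 : v (11 : L) = 1 := by exact_mod_cast A.odd (n := 11) (by norm_num)
  rw [Valuation.map_sub_eq_of_lt_right v, h11]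
  rw [h11]
  exact A.va

lemma At2.vra : v (ra δ a) = v δ := by
  unfold ra
  rw [map_mul, A.va11, mul_one]

lemma At2.vrb : v (rb δ a) = v δ * exp (-4) := by
  unfold rb
  rw [Valuation.map_neg, map_mul]
  congr 1
  have e : a + 10 = (a - 6) + 16 := by ring
  rw [e, v.map_add_eq_of_lt_right, A.v16]
  rw [A.va6, A.v16, exp_lt_exp]
  norm_num

lemma At2.vd0 : ∃ d : ℤ, v δ = exp d ∧ (d = 0 ∨ d = -1) := by
  rcases A.hD with ⟨h, -⟩ | h
  · exact ⟨0, by rw [h, exp_zero], Or.inl rfl⟩
  · exact ⟨-1, h, Or.inr rfl⟩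

lemma At2.dne : δ ≠ 0 := by
  obtain ⟨d, hd, -⟩ := A.vd0
  rintro rfl
  rw [map_zero] at hd
  exact exp_ne_zero hd.symm

lemma At2.ra0 : ra δ a ≠ 0 := by
  intro h
  have := A.vra
  rw [h, map_zero] at this
  exact A.dne ((Valuation.zero_iff v).1 this.symm)

/-- `1 + ra` has order one when `δ ≡ 3 mod 4` -/
lemma At2.vm1 (hd : v δ = 1 ∧ v (δ - 3) ≤ exp (-2)) : v (1 + ra δ a) = exp (-1) := by
  have e : 1 + ra δ a = -14 + (3 * (a - 6) + (δ - 3) * (a - 11)) := by unfold ra; ring
  have h7 : v (7 : L) = 1 := by exact_mod_cast A.odd (n := 7) (by norm_num)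
  have h3 : v (3 : L) = 1 := by exact_mod_cast A.odd (n := 3) (by norm_num)
  have h14 : v (-14 : L) = exp (-1) := by
    have e : (14 : L) = 2 * 7 := by norm_num
    rw [Valuation.map_neg, e, map_mul, h7, mul_one, A.h2]
  rw [e, v.map_add_eq_of_lt_left, h14]
  rw [h14]
  apply v.map_add_lt
  · rw [map_mul, h3, one_mul, A.va6, exp_lt_exp]
    norm_num
  · rw [map_mul, A.va11, mul_one]
    refine hd.2.trans_lt ?_
    rw [exp_lt_exp]
    norm_num

/-- `-ra` is not a square -/
lemma At2.nsq : ¬ IsSquare (-ra δ a) := by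
  rintro ⟨u, hu⟩
  rcases A.hD with hd | hd
  · have hvu : v u = 1 := by
      have h3 := congrArg v hu
      rw [Valuation.map_neg, A.vra, hd.1, map_mul, ← pow_two] at h3
      exact (pow_eq_one_iff_of_nonneg zero_le two_ne_zero).1 h3.symm
    have h4 := sq_mod4 A.h2 A.hres hvu
    have e : u * u - 1 = -(1 + ra δ a) := by rw [← hu]; ring
    rw [e, Valuation.map_neg, A.vm1 hd, exp_le_exp] at h4
    omega
  · have h3 := congrArg v hu
    rw [Valuation.map_neg, A.vra, hd, ← pow_two] at h3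
    have := ev_of_sq h3.symm
    omega

/-- the factor `1 - rb / X` is a square -/
lemma At2.sqB {X : L} {m d : ℤ} (hX : v X = exp m) (hd : v δ = exp d) (hm : d - 1 ≤ m) :
    ∃ z : L, z ≠ 0 ∧ X * (X - rb δ a) = (X * z) ^ 2 := by
  have hX0 : X ≠ 0 := by
    rintro rfl
    rw [map_zero] at hX
    exact exp_ne_zero hX.symm
  have h1 : v (rb δ a / X) ≤ exp (-3) := by
    rw [map_div₀, A.vrb, hX, hd, ← exp_add, ← exp_sub, exp_le_exp]
    omega
  obtain ⟨z, hz⟩ := A.hH (1 - rb δ a / X) (by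
    have e : 1 - rb δ a / X - 1 = -(rb δ a / X) := by ring
    rw [e, Valuation.map_neg]
    exact h1)
  have h5 : v (1 - rb δ a / X) = 1 := by
    rw [Valuation.map_sub_eq_of_lt_left v, map_one]
    rw [map_one]
    refine h1.trans_lt ?_
    rw [← exp_zero, exp_lt_exp]
    norm_num
  refine ⟨z, ?_, ?_⟩
  · rintro rfl
    rw [mul_zero] at hz
    rw [hz, map_zero] at h5
    exact zero_ne_one h5
  · field_simp at hz
    linear_combination X * hz

/-- `X - ra` is a square for large `X` -/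
lemma At2.sqA {X Y : L} {m d : ℤ} (hE : Eeq' δ X Y) (hX : v X = exp m) (hd : v δ = exp d)
    (hm : d - 1 ≤ m) : IsSquare (X - ra δ a) ∧ (X = ra δ a → IsSquare (ra δ a * (ra δ a - rb δ a))) := by
  have hX0 : X ≠ 0 := by
    rintro rfl
    rw [map_zero] at hX
    exact exp_ne_zero hX.symm
  obtain ⟨z, hz0, hz⟩ := A.sqB hX hd hm
  have hf := hE.fac A.ha
  constructor
  · refine ⟨Y / (X * z), ?_⟩
    have h1 : Y ^ 2 = (X * z) ^ 2 * (X - ra δ a) := by rw [hf, ← hz]; ring
    field_simp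
    linear_combination -h1
  · intro h
    rw [h] at hz
    exact ⟨ra δ a * z, by rw [hz]; ring⟩

/-- `X - ra` for small `X` -/
lemma At2.sqS {X : L} {d : ℤ} (hd : v δ = exp d) (hX : v X ≤ exp (d - 3)) :
    ∃ z : L, z ≠ 0 ∧ X - ra δ a = -ra δ a * (z * z) := by
  have hr0 := A.ra0
  have h1 : v (X / ra δ a) ≤ exp (-3) := by
    rw [map_div₀, A.vra, hd]
    calc v X / exp d ≤ exp (d - 3) / exp d := by
          rw [div_eq_mul_inv, div_eq_mul_inv]
          exact mul_le_mul' hX le_rfl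
      _ = exp (-3) := by rw [← exp_sub]; congr 1; ring
  obtain ⟨z, hz⟩ := A.hH (1 - X / ra δ a) (by
    have e : 1 - X / ra δ a - 1 = -(X / ra δ a) := by ring
    rw [e, Valuation.map_neg]
    exact h1)
  have h5 : v (1 - X / ra δ a) = 1 := by
    rw [Valuation.map_sub_eq_of_lt_left v, map_one]
    rw [map_one]
    refine h1.trans_lt ?_
    rw [← exp_zero, exp_lt_exp]
    norm_num
  refine ⟨z, ?_, ?_⟩
  · rintro rfl
    rw [mul_zero] at hz
    rw [hz, map_zero] at h5
    exact zero_ne_one h5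
  · rw [← hz]
    field_simp
    ring

/-- the three kinds of points -/
lemma At2.pt {X Y : L} {m : ℤ} (hE : Eeq' δ X Y) (hX : v X = exp m) :
    (0 ≤ m ∧ m % 2 = 0 ∧ IsSquare (X - ra δ a) ∧
      (X = ra δ a → IsSquare (ra δ a * (ra δ a - rb δ a)))) ∨
    (m = -1 ∧ IsSquare (X - ra δ a) ∧
      (X = ra δ a → IsSquare (ra δ a * (ra δ a - rb δ a)))) ∨
    (m ≤ -3 ∧ ∃ z : L, z ≠ 0 ∧ X - ra δ a = -ra δ a * (z * z)) := by
  have hX0 : X ≠ 0 := by
    rintro rfl
    rw [map_zero] at hX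
    exact exp_ne_zero hX.symm
  obtain ⟨d, hd, hdd⟩ := A.vd0
  have hf := hE.fac A.ha
  have hra := A.vra
  have hrb := A.vrb
  rw [hd] at hra hrb
  rw [← exp_add] at hrb
  rcases le_or_gt 1 m with hm1 | hm1
  · -- large points
    left
    obtain ⟨s1, s2⟩ := A.sqA hE hX hd (by omega)
    refine ⟨by omega, ?_, s1, s2⟩
    have e1 : v (X - ra δ a) = exp m := by
      rw [Valuation.map_sub_eq_of_lt_left v, hX]
      rw [hra, hX, exp_lt_exp]; omega
    have e2 : v (X - rb δ a) = exp m := by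
      rw [Valuation.map_sub_eq_of_lt_left v, hX]
      rw [hrb, hX, exp_lt_exp]; omega
    have e3 : v (Y ^ 2) = exp (m + m + m) := by
      rw [hf, map_mul, map_mul, e1, e2, hX, ← exp_add, ← exp_add]
    have := ev_of_sq e3
    omega
  rcases eq_or_ne m 0 with hm0 | hm0
  · left
    obtain ⟨s1, s2⟩ := A.sqA hE hX hd (by omega)
    exact ⟨by omega, by omega, s1, s2⟩
  rcases eq_or_ne m (-1) with hm2 | hm2
  · right; left
    obtain ⟨s1, s2⟩ := A.sqA hE hX hd (by omega)
    exact ⟨hm2, s1, s2⟩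
  rcases A.hD with hD | hD
  · -- `δ ≡ 3 mod 4`
    have hd0 : d = 0 := by
      rw [hD.1, ← exp_zero, exp_inj] at hd
      exact hd.symm
    rw [hd0] at hd hra hrb
    rcases eq_or_ne m (-2) with hm3 | hm3
    · -- impossible
      exfalso
      rw [hm3] at hX
      set Z := (X - ra δ a) * (1 - rb δ a / X) with hZ
      have hw : Z = (Y / X) * (Y / X) := by
        rw [hZ]
        field_simp
        linear_combination -hf
      have t1 : v (rb δ a / X) = exp (-2) := by
        rw [map_div₀, hrb, hX, ← exp_sub]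
        rfl
      have t2 : v (X - ra δ a) = 1 := by
        rw [Valuation.map_sub_eq_of_lt_right v, hra, exp_zero]
        rw [hra, hX, exp_lt_exp]; norm_num
      have t3 : v (1 - rb δ a / X) = 1 := by
        rw [Valuation.map_sub_eq_of_lt_left v, map_one]
        rw [map_one, t1, ← exp_zero, exp_lt_exp]
        norm_num
      have t4 : v (Y / X) = 1 := by
        have h3 := congrArg v hw
        rw [hZ, map_mul, t2, t3, one_mul, map_mul, ← pow_two] at h3
        exact (pow_eq_one_iff_of_nonneg zero_le two_ne_zero).1 h3.symm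
      have t5 := sq_mod4 A.h2 A.hres t4
      have t6 : 1 + ra δ a = -((Y / X) * (Y / X) - 1) + (X - (X - ra δ a) * (rb δ a / X)) := by
        rw [← hw, hZ]; ring
      have t7 : v (1 + ra δ a) ≤ exp (-2) := by
        rw [t6]
        refine (v.map_add _ _).trans (max_le ?_ ((v.map_sub _ _).trans (max_le hX.le ?_)))
        · rw [Valuation.map_neg]; exact t5
        · rw [map_mul, t2, t1, one_mul]
      rw [A.vm1 hD, exp_le_exp] at t7
      omega
    · right; right
      refine ⟨by omega, A.sqS (d := 0) hd ?_⟩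
      rw [hX, exp_le_exp]
      omega
  · -- `δ ≡ 2 mod 4`
    have hd0 : d = -1 := by
      rw [hD, exp_inj] at hd
      exact hd.symm
    rw [hd0] at hd hra hrb
    have e1 : v (X - ra δ a) = exp (-1) := by
      rw [Valuation.map_sub_eq_of_lt_right v, hra]
      rw [hra, hX, exp_lt_exp]; omega
    rcases eq_or_ne m (-2) with hm3 | hm3
    · exfalso
      obtain ⟨⟨t, ht⟩, -⟩ := A.sqA hE hX hd (by omega)
      rw [ht, ← pow_two] at e1
      have := ev_of_sq e1
      omega
    · right; right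
      rcases le_or_gt m (-5) with hm5 | hm5
      · refine ⟨by omega, A.sqS (d := -1) hd ?_⟩
        rw [hX, exp_le_exp]
        omega
      · exfalso
        have e2 : v (X - rb δ a) = exp m := by
          rw [Valuation.map_sub_eq_of_lt_left v, hX]
          rw [hrb, hX, exp_lt_exp]; omega
        have e3 : v (Y ^ 2) = exp (m + -1 + m) := by
          rw [hf, map_mul, map_mul, e1, e2, hX, ← exp_add, ← exp_add]
        have := ev_of_sq e3
        omega

end two

section idx

variable {L : Type} [Field L] [CharZero L] {δ a : L} {W : WeierstrassCurve L} (S : VE W δ)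
  [DecidableEq L] {v : Valuation L ℤᵐ⁰} (A : At2 v δ a)

include S A in
/-- index four at a place above two -/
theorem idxE_place2 :
    (AddSubgroup.closure {P : W.toAffine.Point | ∀ x y h, P = Affine.Point.some x y h →
      1 < v x ∨ v (W.a₁ * y - (3 * x ^ 2 + 2 * W.a₂ * x + W.a₄)) = 1 ∨
      v (2 * y + W.a₁ * x + W.a₃) = 1}).index = 4 := by
  have ha := A.ha
  obtain ⟨d, hd, hdd⟩ := A.vd0
  have hA0 : ra δ a ≠ 0 := A.ra0
  have hne : 7 * δ ≠ 7 * δ + ra δ a := by
    intro h
    exact hA0 (by linear_combination -h)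
  have hsub : 7 * δ - (7 * δ + ra δ a) = -ra δ a := by ring
  -- the criterion
  have hcrit : ∀ {x y : L}, W.toAffine.Nonsingular x y →
      (1 ≤ v (x - 7 * δ) ↔ (IsSquare (dv (7 * δ + ra δ a) (ra δ a * (ra δ a - rb δ a)) x) ∧
        Evo v (dv (7 * δ) (112 * δ ^ 2) x))) ∧
      (IsSquare (dv (7 * δ + ra δ a) (ra δ a * (ra δ a - rb δ a)) x) ∨
        IsSquare (dv (7 * δ + ra δ a) (ra δ a * (ra δ a - rb δ a)) x * -ra δ a)) := by
    intro x y h
    have hE := S.eeq h.1
    by_cases hX : x = 7 * δ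
    · rw [hX, dv_ne hne, sub_self, map_zero, hsub]
      exact ⟨⟨fun h => absurd h (by simp), fun h => absurd h.1 A.nsq⟩, Or.inr ⟨_, rfl⟩⟩
    have hX' : x - 7 * δ ≠ 0 := sub_ne_zero.2 hX
    obtain ⟨m, hm⟩ := exists_exp v hX'
    rw [dv_ne hX]
    have hsq : IsSquare ((x - 7 * δ) - ra δ a) →
        (x - 7 * δ = ra δ a → IsSquare (ra δ a * (ra δ a - rb δ a))) →
        IsSquare (dv (7 * δ + ra δ a) (ra δ a * (ra δ a - rb δ a)) x) := by
      intro s1 s2
      by_cases hXA : x = 7 * δ + ra δ a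
      · rw [hXA, dv_T]
        exact s2 (by rw [hXA]; ring)
      · rw [dv_ne hXA]
        have e : x - (7 * δ + ra δ a) = (x - 7 * δ) - ra δ a := by ring
        rw [e]
        exact s1
    rcases A.pt hE hm with ⟨m0, m1, s1, s2⟩ | ⟨m0, s1, s2⟩ | ⟨m0, z, hz0, hz⟩
    · refine ⟨⟨fun _ => ⟨hsq s1 s2, m / 2, ?_⟩, fun _ => ?_⟩, Or.inl (hsq s1 s2)⟩
      · rw [hm, exp_inj]; omega
      · rw [hm, ← exp_zero, exp_le_exp]; omega
    · refine ⟨⟨fun h5 => ?_, fun h5 => ?_⟩, Or.inl (hsq s1 s2)⟩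
      · rw [hm, ← exp_zero, exp_le_exp] at h5; omega
      · exfalso
        obtain ⟨k, hk⟩ := h5.2
        rw [hm, exp_inj] at hk
        omega
    · have hXA : x ≠ 7 * δ + ra δ a := by
        intro h5
        have h6 : x - 7 * δ = ra δ a := by rw [h5]; ring
        rw [h6, A.vra, hd, exp_inj] at hm
        omega
      have e : x - (7 * δ + ra δ a) = (x - 7 * δ) - ra δ a := by ring
      rw [dv_ne hXA, e, hz]
      refine ⟨⟨fun h5 => ?_, fun h5 => ?_⟩, Or.inr ⟨ra δ a * z, by ring⟩⟩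
      · rw [hm, ← exp_zero, exp_le_exp] at h5; omega
      · exfalso
        obtain ⟨t, ht⟩ := h5.1
        apply A.nsq
        refine ⟨t / z, ?_⟩
        field_simp
        linear_combination ht
  set H1 := GP (S.w1 ha) mq_sq with hH1
  set H2 := GP S.w0 (mq_evo v) with hH2
  have hT1 : Te S.w0 ∉ H1 := by
    unfold Te
    rw [hH1, mem_GP, dv_ne hne, hsub]
    exact A.nsq
  have hidx1 : H1.index = 2 := by
    rw [AddSubgroup.index_eq_two_iff]
    refine ⟨Te S.w0, fun P => ?_⟩
    by_cases hP : P ∈ H1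
    · refine Or.inr ⟨hP, fun h3 => hT1 ?_⟩
      have := H1.sub_mem h3 hP
      rwa [add_sub_cancel_left] at this
    · refine Or.inl ⟨?_, hP⟩
      rcases P with _ | ⟨X₁, Y₁, h₁⟩
      · exact absurd H1.zero_mem hP
      rcases hsum : (.some X₁ Y₁ h₁ : W.toAffine.Point) + Te S.w0 with _ | ⟨X₃, Y₃, h₃⟩
      · exact H1.zero_mem
      · rw [hH1, mem_GP]
        rw [hH1, mem_GP] at hP
        unfold Te at hsum
        obtain ⟨ν, hν0, hν⟩ := (S.w1 ha).dv_line hsum
        rw [dv_ne hne, hsub] at hν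
        obtain ⟨z, hz⟩ := (hcrit h₁).2.resolve_left hP
        have hz0 : z ≠ 0 := by
          rintro rfl
          rw [mul_zero] at hz
          exact mul_ne_zero (dv_ne_zero (S.w1 ha) X₁) (neg_ne_zero.2 hA0) hz
        rw [hz] at hν
        refine ⟨ν / z, ?_⟩
        field_simp
        linear_combination hν
  -- a point of `H1` outside `H2`
  obtain ⟨Q, hQ1, hQ2⟩ : ∃ Q : W.toAffine.Point, Q ∈ H1 ∧ Q ∉ H2 := by
    rcases A.hD with hD | hD
    · have hv := A.vm1 hD
      have hX0 : (1 + ra δ a) ≠ 0 := by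
        intro h0
        rw [h0, map_zero] at hv
        exact exp_ne_zero hv.symm
      have hd0 : v δ = exp 0 := by rw [hD.1, exp_zero]
      obtain ⟨z, hz0, hz⟩ := A.sqB hv hd0 (by norm_num)
      have hns : W.toAffine.Nonsingular (7 * δ + (1 + ra δ a)) ((1 + ra δ a) * z) := by
        rw [Affine.nonsingular_iff, Affine.equation_iff, S.h1, S.h2, S.h3, S.h4, S.h6]
        refine ⟨?_, Or.inr ?_⟩
        · have e1 := ra_mul (δ := δ) ha
          have e2 := ra_add δ a
          linear_combination (-1 : L) * hz - (1 + ra δ a) ^ 2 * e2 + (1 + ra δ a) * e1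
        · intro h0
          have h5 : 2 * ((1 + ra δ a) * z) = 0 := by linear_combination h0
          exact mul_ne_zero two_ne_zero (mul_ne_zero hX0 hz0) h5
      refine ⟨.some _ _ hns, ?_, ?_⟩
      · rw [hH1, mem_GP, dv_ne (by
          intro h0
          have : (1 : L) = 0 := by linear_combination h0
          exact one_ne_zero this)]
        exact ⟨1, by ring⟩
      · rw [hH2, mem_GP, dv_ne (by
          intro h0
          exact hX0 (by linear_combination h0)), add_sub_cancel_left]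
        rintro ⟨k, hk⟩
        rw [hv, exp_inj] at hk
        omega
    · refine ⟨Te (S.w1 ha), ?_, ?_⟩
      · unfold Te
        rw [hH1, mem_GP, dv_T]
        obtain ⟨z, hz0, hz⟩ := A.sqB (X := ra δ a) (m := -1) (d := -1) (by rw [A.vra, hD]) hD
          (by norm_num)
        exact ⟨ra δ a * z, by rw [hz]; ring⟩
      · unfold Te
        rw [hH2, mem_GP, dv_ne hne.symm, add_sub_cancel_left]
        rintro ⟨k, hk⟩
        rw [A.vra, hD, exp_inj] at hk
        omega
  have hidx2 : H2.relIndex H1 = 2 := by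
    show (H2.addSubgroupOf H1).index = 2
    rw [AddSubgroup.index_eq_two_iff]
    refine ⟨⟨Q, hQ1⟩, fun P => ?_⟩
    rw [AddSubgroup.mem_addSubgroupOf, AddSubgroup.mem_addSubgroupOf]
    show Xor ((P : W.toAffine.Point) + Q ∈ H2) ((P : W.toAffine.Point) ∈ H2)
    by_cases hP : (P : W.toAffine.Point) ∈ H2
    · refine Or.inr ⟨hP, fun h3 => hQ2 ?_⟩
      have := H2.sub_mem h3 hP
      rwa [add_sub_cancel_left] at this
    · refine Or.inl ⟨?_, hP⟩
      have hGI : H2.index = 2 := GP_index S.w0 (mq_evo v) (evo_dich v) hQ2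
      exact (AddSubgroup.add_mem_iff_of_index_two hGI).2 ⟨fun h => absurd h hP, fun h => absurd h hQ2⟩
  have hidx : (H2 ⊓ H1).index = 4 := by
    have h3 := AddSubgroup.relIndex_mul_index (H := H2 ⊓ H1) (K := H1) inf_le_right
    rw [AddSubgroup.inf_relIndex_right, hidx2, hidx1] at h3
    omega
  have hdl : v δ ≤ 1 := by
    rw [hd, ← exp_zero, exp_le_exp]
    omega
  have h3 : v (3 : L) = 1 := by exact_mod_cast A.odd (n := 3) (by norm_num)
  rw [idx_of' S (H2 ⊓ H1) (fun x y h => ?_), hidx]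
  rw [sing_red' hdl (Or.inr ⟨A.l2, h3⟩) (Or.inr A.l2) (by
      have e : (112 : L) * δ ^ 2 = 2 * (56 * δ ^ 2) := by ring
      rw [e]
      exact vmulr A.l2 (vmul (by exact_mod_cast vnat v 56) (vpow hdl 2)))
    (S.eqn h.1), AddSubgroup.mem_inf, hH1, hH2, mem_GP, mem_GP]
  rw [(hcrit h).1]
  exact and_comm

end idx

end Pool.Agent.L0h23.EV
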